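import Mathlib
import Pool.Agent.Results.MP_a247fa_nt.OddCriticalPoints
import Pool.Agent.H723R2.LSWDens
import Pool.Agent.X62.BF.EntrK
import Pool.Agent.X62.BF.OddSets

set_option autoImplicit false

/-!
The critical points of Chamberland's map above the products of two odd integers, with arbitrary bounded
weights on the factors.
-/

namespace Pool.Agent.Results.MP_a247fa_nt.CriticalPointsAtProducts

open Filter Topology Finset

/-- Chamberland's map. -/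
noncomputable def f (x : ℝ) : ℝ := x + 1 / 4 - (2 * x + 1) / 4 * Real.cos (Real.pi * x)

/-- The `3x+1` map. -/
def T (n : ℕ) : ℕ := if n % 2 = 0 then n / 2 else (3 * n + 1) / 2

/-- Points of attracting cycles contained in `(0,∞)`. -/
def AttractingPoint (y : ℝ) : Prop :=
  0 < y ∧ 0 < Function.minimalPeriod f y ∧ |deriv (f^[Function.minimalPeriod f y]) y| < 1

/-- The orbit of `x` converges to the cycle of `y`. -/
def Attracts (y x : ℝ) : Prop :=
  ∃ j : ℕ, Tendsto (fun k : ℕ => f^[k * Function.minimalPeriod f y + j] x) atTop (𝓝 y)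

/-- `x` is attracted by the cycle `A₁ = {1, 2}` or by the cycle `A₂ = {a, f a}`, or its orbit ends in a
point of `[1.02, 1.05]` of period two. -/
def KnownFate (a x : ℝ) : Prop :=
  Attracts 1 x ∨ Attracts a x ∨ ∃ K, f^[K] x ∈ Set.Icc (1.02 : ℝ) 1.05 ∧ f^[K + 2] x = f^[K] x

/-- The orbit of `x` is below `2` for the first time at time `k`. -/
def Arrives (k : ℕ) (x : ℝ) : Prop := f^[k] x < 2 ∧ ∀ i < k, 2 ≤ f^[i] x

/-- The orbits of `x` and `y` have, from some times on, the same integral parts. -/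
def Merge (x y : ℝ) : Prop := ∃ i j : ℕ, ∀ k : ℕ, ⌊f^[k + i] x⌋ = ⌊f^[k + j] y⌋

/-- `m` is the least element of a cycle of `T`. -/
def IsCycleRep (m : ℕ) : Prop := 1 ≤ m ∧ (∃ p : ℕ, 0 < p ∧ T^[p] m = m) ∧ ∀ j : ℕ, m ≤ T^[j] m

/-- `2 log n / log (4/3) + x * log 3 * √(2 log n / (log (4/3))^3)` -/
noncomputable def bound (x : ℝ) (n : ℕ) : ℝ :=
  2 / Real.log (4 / 3) * Real.log n +
    x * (Real.log 3 * Real.sqrt (2 * Real.log n / Real.log (4 / 3) ^ 3))

/-- The distribution function of the standard normal law. -/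
noncomputable def Phi (x : ℝ) : ℝ :=
  ProbabilityTheory.cdf (ProbabilityTheory.gaussianReal 0 1) x

/-- `u` is a weight: `|u a| ≤ 1`, and `u a = 0` for even `a` (otherwise `u` is arbitrary). -/
def Weight (u : ℕ → ℂ) : Prop := (∀ a, ‖u a‖ ≤ 1) ∧ ∀ a, Even a → u a = 0

open scoped Classical in
/-- THE FREQUENCY of the property `P` of odd positive integers at the products `r a b` is `l`, with
arbitrary bounded weights on the factors `a`, `b`: for every `ε > 0` there is `ϑ > 0` such that for every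
`α > 0`, all large `X`, all `M` between `X ^ α` and `X ^ ϑ`, all odd `r ≤ X ^ ϑ` and all weights `u`, `v`
(arbitrary complex numbers of absolute value at most `1` on the odd integers), the sum of `u a * v b` over
the odd `a ∈ (M, 2 M]` and `b ∈ [1, X]` for which `r a b` has the property `P` is `l (∑ u a) (∑ v b)` up to
`ε M X`. -/
def AtProducts (P : ℕ → Prop) (l : ℝ) : Prop := ∀ ε : ℝ, 0 < ε → ∃ ϑ : ℝ, 0 < ϑ ∧ ∀ α : ℝ, 0 < α →
  ∃ X₀ : ℕ, ∀ X M r : ℕ, X₀ ≤ X → (X : ℝ) ^ α ≤ M → (M : ℝ) ≤ (X : ℝ) ^ ϑ → r % 2 = 1 →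
    (r : ℝ) ≤ (X : ℝ) ^ ϑ → ∀ u v : ℕ → ℂ, Weight u → Weight v →
    ‖∑ p ∈ (Ioc M (2 * M) ×ˢ Icc 1 X).filter (fun p => P (r * p.1 * p.2)), u p.1 * v p.2 -
      l * ((∑ a ∈ Ioc M (2 * M), u a) * ∑ b ∈ Icc 1 X, v b)‖ ≤ ε * (M * X)

/-- The sets `A` and `B` of odd integers are contained in `(M, 2 M]` and in `[1, X]`. -/
def Boxed (M X : ℕ) (A B : Set ℕ) : Prop := (∀ a ∈ A, M < a ∧ a ≤ 2 * M ∧ Odd a) ∧ ∀ b ∈ B, b ≤ X ∧ Odd b

open Pool.Agent.X62.BF (PL PO PO_of PO_sets PO_exists PL_not PL_congr PL_inv' pl_entr_k pl_laws lln)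

theorem at_of {P : ℕ → Prop} {l : ℝ} (h : PO P l) : AtProducts P l := by
  intro ε hε
  obtain ⟨ϑ, h0, H⟩ := h ε hε
  refine ⟨ϑ, h0, fun α hα => ?_⟩
  obtain ⟨N0, H⟩ := H α hα
  exact ⟨N0, fun N M r hN h1 h2 h3 h4 u v hu hv => H N M r hN h1 h2 h3 h4 u v hu.1 hv.1 hu.2 hv.2⟩

theorem of_at {P : ℕ → Prop} {l : ℝ} (h : AtProducts P l) : PO P l := by
  intro ε hε
  obtain ⟨ϑ, h0, H⟩ := h ε hε
  refine ⟨ϑ, h0, fun α hα => ?_⟩
  obtain ⟨N0, H⟩ := H α hα
  exact ⟨N0, fun N M r hN h1 h2 h3 h4 u v hu hv hu2 hv2 => H N M r hN h1 h2 h3 h4 u v ⟨hu, hu2⟩ ⟨hv, hv2⟩⟩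

open Pool.Agent.H723R2.LSW (Mer Wild cast_iter)

theorem zT (k n : ℕ) : Pool.Agent.H723R2.LSW.T^[k] (n : ℤ) = ((T^[k] n : ℕ) : ℤ) :=
  Pool.Agent.Y964.LW.Tz_nat k n

theorem T_iter_pos {n : ℕ} (hn : 1 ≤ n) (k : ℕ) : 1 ≤ T^[k] n :=
  Pool.Agent.H934R2.Ch.T_iter_pos hn k

/-- orbits which follow `T` -/
def Fol (n : ℕ) (x : ℝ) : Prop := ∀ k : ℕ, ((T^[k] n : ℕ) : ℝ) ≤ f^[k] x ∧
  f^[k] x ≤ (T^[k] n : ℕ) + 5 / (6 * (2 * ((T^[k] n : ℕ) : ℝ) + 1))

theorem fol_floor {n : ℕ} (hn : 1 ≤ n) {x : ℝ} (h : Fol n x) (k : ℕ) : ⌊f^[k] x⌋ = (T^[k] n : ℕ) := by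
  obtain ⟨h1, h2⟩ := h k
  have h3 : (1 : ℝ) ≤ (T^[k] n : ℕ) := by exact_mod_cast T_iter_pos hn k
  have h4 : 5 / (6 * (2 * ((T^[k] n : ℕ) : ℝ) + 1)) < 1 := by
    rw [div_lt_one (by positivity)]
    linarith
  rw [Int.floor_eq_iff]
  push_cast
  constructor
  · exact h1
  · linarith

theorem merge_iff {n m : ℕ} (hn : 1 ≤ n) (hm : 1 ≤ m) {x y : ℝ} (hx : Fol n x) (hy : Fol m y) :
    Merge x y ↔ Mer (n : ℤ) (m : ℤ) := by
  constructor
  · rintro ⟨i, j, h⟩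
    have h1 := h 0
    rw [Nat.zero_add, Nat.zero_add, fol_floor hn hx, fol_floor hm hy] at h1
    exact ⟨i, j, by rw [zT, zT]; exact h1⟩
  · rintro ⟨i, j, h⟩
    refine ⟨i, j, fun k => ?_⟩
    rw [fol_floor hn hx, fol_floor hm hy]
    rw [← zT, ← zT, Function.iterate_add_apply, Function.iterate_add_apply, h]

theorem arr_iff {n : ℕ} (hn : 1 ≤ n) {x : ℝ} (h : Fol n x) (k : ℕ) : f^[k] x < 2 ↔ T^[k] n = 1 := by
  have h1 := T_iter_pos hn k
  have h2 := h k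
  constructor
  · intro h3
    have h4 : ((T^[k] n : ℕ) : ℝ) < 2 := lt_of_le_of_lt h2.1 h3
    have h5 : T^[k] n < 2 := by exact_mod_cast h4
    omega
  · intro h3
    rw [h3] at h2
    have h4 := h2.2
    norm_num at h4
    linarith

theorem arrives_iff {n : ℕ} (hn : 1 ≤ n) {x : ℝ} (h : Fol n x) (k : ℕ) :
    Arrives k x ↔ Pool.Agent.H499R2.HL.H k n := by
  show (f^[k] x < 2 ∧ ∀ i < k, 2 ≤ f^[i] x) ↔ (T^[k] n = 1 ∧ ∀ i < k, T^[i] n ≠ 1)
  rw [arr_iff hn h k]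
  refine and_congr_right fun _ => forall₂_congr fun i _ => ?_
  rw [← not_lt, arr_iff hn h i]


theorem fol_tendsto {n : ℕ} (hn : 1 ≤ n) {x : ℝ} (h : Fol n x) :
    Tendsto (fun k : ℕ => f^[k] x) atTop atTop ↔ Wild (n : ℤ) := by
  constructor
  · intro h1
    by_contra hcon
    obtain ⟨k, p, c, hp, hc, hk⟩ := Pool.Agent.H723R2.LSW.tame_hits hcon
    -- the orbit is periodic from time `k` on
    have hc0 : c = ((T^[k] n : ℕ) : ℤ) := by rw [← hk, zT]
    set m := T^[k] n with hm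
    have hper : T^[p] m = m := by
      have h2 := zT p m
      rw [← hc0, hc, hc0] at h2
      exact_mod_cast h2.symm
    have hperi : ∀ i : ℕ, T^[p * i] m = m := by
      intro i
      rw [Function.iterate_mul]
      exact Function.iterate_fixed hper i
    have h3 : ∀ i : ℕ, f^[p * i + k] x ≤ m + 1 := by
      intro i
      have h4 := (h (p * i + k)).2
      have h5 : T^[p * i + k] n = m := by
        rw [Function.iterate_add_apply, ← hm, hperi]
      rw [h5] at h4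
      have h6 : 5 / (6 * (2 * (m : ℝ) + 1)) ≤ 1 := by
        rw [div_le_one (by positivity)]
        have : (1 : ℝ) ≤ m := by exact_mod_cast T_iter_pos hn k
        linarith
      linarith
    have h7 : Tendsto (fun i : ℕ => p * i + k) atTop atTop :=
      tendsto_atTop_mono (fun i => by
        show i ≤ p * i + k
        have := Nat.le_mul_of_pos_left i hp
        omega) tendsto_id
    have h8 := (h1.comp h7).eventually_ge_atTop ((m : ℝ) + 2)
    obtain ⟨i, hi⟩ := h8.exists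
    have h9 := h3 i
    have h10 : (m : ℝ) + 2 ≤ f^[p * i + k] x := hi
    linarith
  · intro h1
    have hinj : Function.Injective (fun k : ℕ => T^[k] n) := by
      intro i j hij
      apply h1 i j
      rw [zT, zT]
      exact_mod_cast hij
    have h2 : Tendsto (fun k : ℕ => T^[k] n) atTop atTop := by
      have h3 := hinj.tendsto_cofinite
      rwa [Nat.cofinite_eq_atTop] at h3
    have h4 : Tendsto (fun k : ℕ => ((T^[k] n : ℕ) : ℝ)) atTop atTop :=
      tendsto_natCast_atTop_atTop.comp h2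
    exact tendsto_atTop_mono (fun k => (h k).1) h4

theorem reach_mer {n m : ℕ} {p : ℕ} (hp : 0 < p) (hpm : T^[p] m = m) :
    Mer (n : ℤ) (m : ℤ) ↔ ∃ k, T^[k] n = m := by
  constructor
  · rintro ⟨i, j, hij⟩
    rw [zT, zT] at hij
    have hij' : T^[i] n = T^[j] m := by exact_mod_cast hij
    have hcp : ∀ l, T^[p * l] m = m := by
      intro l
      rw [Function.iterate_mul]
      exact Function.iterate_fixed hpm l
    refine ⟨p * j - j + i, ?_⟩
    have hle : j ≤ p * j := Nat.le_mul_of_pos_left j hp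
    rw [Function.iterate_add_apply, hij', ← Function.iterate_add_apply,
      Nat.sub_add_cancel hle, hcp]
  · rintro ⟨k, hk⟩
    exact ⟨k, 0, by rw [zT, hk]; rfl⟩

/-- the cycles, in the two notations -/
noncomputable def cycEquiv : {m : ℕ // IsCycleRep m} ≃ {a : ℤ // Pool.Agent.H723R2.LSW.IsCycleRep 1 a} where
  toFun m := ⟨(m.1 : ℤ), by
    obtain ⟨m, h1, ⟨p, hp, hpm⟩, h3⟩ := m
    refine ⟨by show 0 < 1 * (m : ℤ); omega, ⟨p, hp, ?_⟩, fun j b hb => ?_⟩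
    · rw [cast_iter, zT]; exact_mod_cast hpm
    · rw [cast_iter, zT] at hb
      rw [← hb]
      have := h3 j
      show 1 * (m : ℤ) ≤ 1 * ((T^[j] m : ℕ) : ℤ)
      omega⟩
  invFun a := ⟨a.1.toNat, by
    obtain ⟨a, h1, ⟨p, hp, hpm⟩, h3⟩ := a
    have ha : ((a.toNat : ℕ) : ℤ) = a := Int.toNat_of_nonneg (by omega)
    show IsCycleRep a.toNat
    refine ⟨by omega, ⟨p, hp, ?_⟩, fun j => ?_⟩
    · rw [cast_iter, ← ha, zT] at hpm
      exact_mod_cast hpm
    · have h4 := h3 j _ (cast_iter.2 rfl)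
      rw [← ha, zT] at h4
      omega⟩
  left_inv m := by
    apply Subtype.ext
    show ((m.1 : ℤ)).toNat = m.1
    omega
  right_inv a := by
    apply Subtype.ext
    show ((a.1.toNat : ℕ) : ℤ) = a.1
    have := a.2.1
    omega

theorem wild_T (x : ℤ) : Wild x ↔ Wild (Pool.Agent.H723R2.LSW.T x) :=
  ⟨Pool.Agent.H723R2.LSW.wild_mer ⟨1, 0, rfl⟩, Pool.Agent.H723R2.LSW.wild_mer ⟨0, 1, rfl⟩⟩

theorem mer_T (a x : ℤ) : Mer x a ↔ Mer (Pool.Agent.H723R2.LSW.T x) a := by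
  have h1 : Mer x (Pool.Agent.H723R2.LSW.T x) := ⟨1, 0, rfl⟩
  exact ⟨fun h => h1.symm.trans h, fun h => h1.trans h⟩

theorem one_mul_cast (n : ℕ) : (1 : ℤ) * (n : ℤ) = (n : ℤ) := one_mul _

/-- relative frequency of an invariant set of positive integers -/
theorem inv_rel {S : Set ℤ} (hS : ∀ n : ℤ, n ∈ S ↔ Pool.Agent.H723R2.LSW.T n ∈ S) {d : ℝ}
    (h : Pool.Agent.H723R2.LSW.HasDensity 1 S d) {P : ℕ → Prop} (hP : ∀ n : ℕ, Odd n → ((n : ℤ) ∈ S ↔ P n)) :
    AtProducts P d := by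
  have h1 := PL_inv' (s := 1) (Or.inl rfl) hS h
  refine at_of <| PO_of h1 1 (fun n _ ho => ?_)
  rw [one_mul_cast]
  exact hP n ho

theorem all_of_odd (hP : ∀ n : ℕ, n % 2 = 1 → ∃ k, T^[k] n = 1) : ∀ n : ℕ, 1 ≤ n → ∃ k, T^[k] n = 1 := by
  intro n
  induction n using Nat.strong_induction_on with
  | _ n ih =>
    intro hn
    rcases Nat.mod_two_eq_zero_or_one n with h | h
    · obtain ⟨k, hk⟩ := ih (n / 2) (by omega) (by omega)
      refine ⟨k + 1, ?_⟩
      rw [Function.iterate_succ_apply]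
      have : T n = n / 2 := by unfold T; rw [if_pos h]
      rw [this, hk]
    · exact hP n h

/-- THE CRITICAL POINTS OF CHAMBERLAND'S MAP ABOVE THE PRODUCTS OF TWO ODD INTEGERS.
For odd `n` let `c n` be the critical point of `f` in `(n, n + 1/2)`. In the sense of `AtProducts`
(`n = r a b`, `a ∈ (M, 2 M]`, `b ≤ X`, `X ^ α ≤ M ≤ X ^ ϑ`, `r ≤ X ^ ϑ`, with arbitrary bounded complex weights
`u a * v b` on the odd `a`, `b`):
(1) the critical points `c n` of known fate (attracted by `A₁` or `A₂`, or ending in a point of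
`[1.02, 1.05]` of period two) have frequency `β 1`; `β 1 = 1` if and only if all `c n` are of known fate,
and if and only if the `3x+1` conjecture holds;
(2) the orbit of `c n` is below `2` for the first time at a time `≡ b` modulo `q` with frequency
`β 1 / q`, and at such a time which is at most `2 log n / log (4/3) + x log 3 √(2 log n / (log (4/3))^3)`
with frequency `β 1 Φ(x) / q`, `Φ` the standard normal distribution function; for every `η > 0` this time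
is `(2 / log (4/3) ± η) log n` with frequency `β 1`;
(3) for every odd `m` the orbits of `c n` which merge with the orbit of `c m` (have, from some times on,
the same integral parts) have frequency `β m > 0`;
(4) the critical points `c n` whose orbits tend to infinity have frequency `w`, and `w = 0` if and only
if there are none; the frequencies `β m` of the cycles of the `3x+1` map and `w` add up to `1`.
(5) SETS. Let `P` have the frequency `l` at products. For every `ε > 0` there is `ϑ > 0` such that for all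
`α > 0`, all large `X`, all `M` in `[X ^ α, X ^ ϑ]`, all odd `r ≤ X ^ ϑ` and ALL sets `A ⊆ (M, 2 M]`,
`B ⊆ [1, X]` of odd integers the number of the pairs `a ∈ A`, `b ∈ B` with `P (r a b)` is `l |A| |B|` up to
`ε M X`. If `l > 0` and `c₀ > 0`, then (with `ϑ` depending on `c₀`) all such sets with `|A| ≥ c₀ M` and
`|B| ≥ c₀ X` contain `a`, `b` with `P (r a b)`. -/
theorem result : ∃ (a : ℝ) (c : ℕ → ℝ) (w : ℝ) (β : ℕ → ℝ),
    (a ∈ Set.Icc (1.19 : ℝ) 1.196 ∧ f (f a) = a ∧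
      ∀ y, y = 1 ∨ y = 2 ∨ y = a ∨ y = f a → AttractingPoint y) ∧
    (∀ n : ℕ, n % 2 = 1 → (n : ℝ) < c n ∧ c n < n + 1 / 2 ∧ deriv f (c n) = 0 ∧
      ∀ x : ℝ, (n : ℝ) < x → x < n + 1 / 2 → deriv f x = 0 → x = c n) ∧
    (AtProducts (fun n => KnownFate a (c n)) (β 1) ∧
      (β 1 = 1 ↔ ∀ n : ℕ, n % 2 = 1 → KnownFate a (c n)) ∧
      (β 1 = 1 ↔ ∀ n : ℕ, 1 ≤ n → ∃ k : ℕ, T^[k] n = 1)) ∧
    (∀ (q : ℕ) (b : ℤ), 1 ≤ q →
      AtProducts (fun n => ∃ k : ℕ, Arrives k (c n) ∧ (k : ℤ) ≡ b [ZMOD q]) (β 1 / q) ∧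
      ∀ x : ℝ, AtProducts (fun n => ∃ k : ℕ, Arrives k (c n) ∧ (k : ℝ) ≤ bound x n ∧
        (k : ℤ) ≡ b [ZMOD q]) (β 1 * Phi x / q)) ∧
    (∀ η : ℝ, 0 < η → AtProducts (fun n => ∃ k : ℕ, Arrives k (c n) ∧
      |(k : ℝ) - 2 / Real.log (4 / 3) * Real.log n| ≤ η * Real.log n) (β 1)) ∧
    (∀ m : ℕ, m % 2 = 1 → 0 < β m ∧ AtProducts (fun n => Merge (c n) (c m)) (β m)) ∧
    (AtProducts (fun n => Tendsto (fun k : ℕ => f^[k] (c n)) atTop atTop) w ∧
      (w = 0 ↔ ∀ n : ℕ, n % 2 = 1 → ¬ Tendsto (fun k : ℕ => f^[k] (c n)) atTop atTop)) ∧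
    HasSum (fun m : {m : ℕ // IsCycleRep m} => β m) (1 - w) ∧
    (∀ (P : ℕ → Prop) (l : ℝ), AtProducts P l →
      (∀ ε : ℝ, 0 < ε → ∃ ϑ : ℝ, 0 < ϑ ∧
        ∀ α : ℝ, 0 < α → ∃ X₀ : ℕ, ∀ X M r : ℕ, X₀ ≤ X → (X : ℝ) ^ α ≤ M → (M : ℝ) ≤ (X : ℝ) ^ ϑ →
        r % 2 = 1 → (r : ℝ) ≤ (X : ℝ) ^ ϑ → ∀ A B : Set ℕ, Boxed M X A B →
        |({p : ℕ × ℕ | p.1 ∈ A ∧ p.2 ∈ B ∧ P (r * p.1 * p.2)}.ncard : ℝ) -
          l * (A.ncard * B.ncard)| ≤ ε * (M * X)) ∧
      (∀ c₀ : ℝ, 0 < c₀ → 0 < l → ∃ ϑ : ℝ, 0 < ϑ ∧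
        ∀ α : ℝ, 0 < α → ∃ X₀ : ℕ, ∀ X M r : ℕ, X₀ ≤ X → (X : ℝ) ^ α ≤ M → (M : ℝ) ≤ (X : ℝ) ^ ϑ →
        r % 2 = 1 → (r : ℝ) ≤ (X : ℝ) ^ ϑ → ∀ A B : Set ℕ, Boxed M X A B → c₀ * M ≤ A.ncard →
        c₀ * X ≤ B.ncard → ∃ a' ∈ A, ∃ b' ∈ B, P (r * a' * b'))) := by
  obtain ⟨a, ha, hfa, _, hattr, _, _, hodd⟩ := Pool.Agent.Results.MP_a247fa_nt.OddCriticalPoints.result
  choose! c hc1 hc2 hc3 hc4 hc5 hc6 hc7 using hodd
  have hfol : ∀ n : ℕ, n % 2 = 1 → Fol n (c n) := fun n hn k => hc5 n hn k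
  have hkf : ∀ n : ℕ, n % 2 = 1 → (KnownFate a (c n) ↔ ∃ k, T^[k] n = 1) := fun n hn => (hc6 n hn).symm
  obtain ⟨w, β, hw, hw0, hmer, hbas, hsum⟩ := Pool.Agent.H723R2.LSW.main (s := 1) (Or.inl rfl)
  have hmerD : ∀ a : ℤ, 0 < a → Pool.Agent.H723R2.LSW.HasDensity 1 {n | Mer n a} (β a) := by
    intro a ha
    have h1 := (hmer a (by omega)).2
    have e : {n : ℤ | ∃ i j : ℕ, Pool.Agent.H723R2.LSW.f₀^[i] (n : ℂ) = Pool.Agent.H723R2.LSW.f₀^[j] (a : ℂ)}
        = {n | Mer n a} := by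
      ext n
      show (∃ i j : ℕ, Pool.Agent.H723R2.LSW.f₀^[i] (n : ℂ) = Pool.Agent.H723R2.LSW.f₀^[j] (a : ℂ)) ↔ Mer n a
      constructor
      · rintro ⟨i, j, h⟩
        rw [Pool.Agent.H723R2.LSW.f₀_iter, Pool.Agent.H723R2.LSW.f₀_iter] at h
        exact ⟨i, j, by exact_mod_cast h⟩
      · rintro ⟨i, j, h⟩
        exact ⟨i, j, by rw [Pool.Agent.H723R2.LSW.f₀_iter, Pool.Agent.H723R2.LSW.f₀_iter, h]⟩
    rw [← e]
    exact h1
  have hwD : Pool.Agent.H723R2.LSW.HasDensity 1 {n | Wild n} w := by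
    have e : {n : ℤ | Pool.Agent.H384R2.Fatou.IsWanderingDomain Pool.Agent.H723R2.LSW.f₀
        (Pool.Agent.H384R2.Fatou.FatouComponent Pool.Agent.H723R2.LSW.f₀ n)} = {n | Wild n} := by
      ext n; exact Pool.Agent.H723R2.LSW.wandering_iff n
    rw [← e]; exact hw
  obtain ⟨δ, h0, h1, h2, h3, h4, h5⟩ := pl_laws
  have hT1 : T^[2] 1 = 1 := rfl
  have hδ : δ = β 1 := by
    refine tendsto_nhds_unique h3 (Pool.Agent.H499R2.LT.Dn_iff (fun n _ => ?_)
      (Pool.Agent.Y964.LW.dn_side (s := 1) (Or.inl rfl) (hmerD 1 (by norm_num))))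
    rw [one_mul_cast]
    exact reach_mer (m := 1) (by norm_num : 0 < 2) hT1
  -- entrance into `{1}`
  have hF : ∀ y ∈ ({1} : Finset ℤ), y % 2 = 1 := fun y hy => by
    rw [Finset.mem_singleton] at hy; rw [hy]; norm_num
  have hB : Pool.Agent.Y964.LW.Bd ({1} : Finset ℤ) 2 := by
    intro y hy i
    rw [Finset.mem_singleton] at hy
    rw [hy]
    have h6 := zT i 1
    have h7 : (Pool.Agent.H499R2.ND.Td 1)^[i] 1 = ((T^[i] 1 : ℕ) : ℤ) := h6
    rw [h7]
    rcases Pool.Agent.Y964.LW.Tn_one_iter i with h8 | h8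
    · have h9 : T^[i] 1 = 1 := h8
      rw [h9]; norm_num
    · have h9 : T^[i] 1 = 2 := h8
      rw [h9]; norm_num
  have hEk : ∀ (k n : ℕ), Pool.Agent.W26.HN.E {1} k (1 * (n : ℤ)) ↔ Pool.Agent.H499R2.HL.H k n := by
    intro k n
    show ((Pool.Agent.H723R2.LSW.T^[k] (1 * (n : ℤ)) ∈ ({1} : Finset ℤ)) ∧
      ∀ i < k, Pool.Agent.H723R2.LSW.T^[i] (1 * (n : ℤ)) ∉ ({1} : Finset ℤ)) ↔ (T^[k] n = 1 ∧ ∀ i < k, T^[i] n ≠ 1)
    rw [one_mul_cast, Finset.mem_singleton, zT]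
    refine and_congr (by exact_mod_cast Iff.rfl) (forall₂_congr fun i _ => not_congr ?_)
    rw [Finset.mem_singleton, zT]
    exact_mod_cast Iff.rfl
  have hE : Pool.Agent.H499R2.ND.Dn (fun n : ℕ => ∃ k : ℕ, Pool.Agent.W26.HN.E {1} k (1 * n)) δ := by
    refine Pool.Agent.H499R2.LT.Dn_iff (fun n _ => ?_) h3
    rw [Pool.Agent.Y964.LW.hit_iff n]
    exact exists_congr fun k => (hEk k n).symm
  obtain ⟨_, _, _, hlaw⟩ := pl_entr_k (s := 1) (Or.inl rfl) hF hB hE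
  refine ⟨a, c, w, fun m => β m, ⟨ha, hfa, hattr⟩, fun n hn => ⟨hc1 n hn, hc2 n hn, hc3 n hn, hc4 n hn⟩,
    ⟨?_, ?_, ?_⟩, fun q b hq => ⟨?_, fun x => ?_⟩, fun η hη => ?_, fun m hm => ⟨?_, ?_⟩, ⟨?_, ?_⟩, ?_,
    fun P l hP => ⟨fun ε hε => ?_, fun c₀ hc₀ hl => ?_⟩⟩
  · -- (1)
    have h6 := at_of <| PO_of h4 1 (P := fun n => KnownFate a (c n)) (fun n _ ho => by
      rw [hkf n (Nat.odd_iff.1 ho)]
      exact (Pool.Agent.Y964.LW.hit_iff n).symm)
    rw [hδ] at h6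
    exact h6
  · show β 1 = 1 ↔ _
    rw [← hδ, h2]
    constructor
    · intro h n hn
      exact (hkf n hn).2 (h n (by omega))
    · intro h
      exact all_of_odd fun n hn => (hkf n hn).1 (h n hn)
  · show β 1 = 1 ↔ _
    rw [← hδ]
    exact h2
  · -- (2)
    have h6 := at_of <| PO_of (hlaw q b 0 hq).2.1 1
      (P := fun n => ∃ k : ℕ, Arrives k (c n) ∧ (k : ℤ) ≡ b [ZMOD q]) (fun n hn ho => by
        refine exists_congr fun k => ?_
        rw [hEk, arrives_iff hn (hfol n (Nat.odd_iff.1 ho))])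
    rw [hδ] at h6
    exact h6
  · have h6 := at_of <| PO_of ((hlaw q b 0 hq).2.2 x).2 1
      (P := fun n => ∃ k : ℕ, Arrives k (c n) ∧ (k : ℝ) ≤ bound x n ∧ (k : ℤ) ≡ b [ZMOD q]) (fun n hn ho => by
        refine exists_congr fun k => ?_
        rw [hEk, arrives_iff hn (hfol n (Nat.odd_iff.1 ho))]
        exact Iff.rfl)
    have e : δ / (q : ℝ) * Pool.Agent.H499R2.ND.Phi x = (fun m : ℕ => β m) 1 * Phi x / q := by
      unfold Phi
      rw [← Pool.Agent.H499R2.ND.phi_cdf]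
      show _ = β 1 * _ / _
      rw [hδ]
      ring
    rw [e] at h6
    exact h6
  · have hrr := Pool.Agent.H499R2.HL.rr_pos
    have hl3 : 0 < Real.log 3 := Real.log_pos (by norm_num)
    have h6 := lln (f := fun k _ => (k : ℝ)) (α := 2 / Real.log (4 / 3))
      (σ := Real.log 3 * Pool.Agent.H499R2.HL.rr) (δ := δ) (η := η) (by positivity) h0.le h1 hη (fun x => by
        have h7 := ((h5 1 0 0 le_rfl).2.2 x).1
        have e1 : δ / ((1 : ℕ) : ℝ) ^ 2 * Pool.Agent.H499R2.ND.Phi x = δ * Pool.Agent.H499R2.ND.Phi x := by simp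
        rw [e1] at h7
        refine PL_congr 0 (fun n _ => exists_congr fun k => and_congr_right fun _ => ?_) h7
        rw [← Pool.Agent.Y964.LW.bk_thr]
        simp [Int.modEq_one]) h4
    have h7 := at_of <| PO_of h6 1 (P := fun n => ∃ k : ℕ, Arrives k (c n) ∧
      |(k : ℝ) - 2 / Real.log (4 / 3) * Real.log n| ≤ η * Real.log n) (fun n hn ho => by
        refine exists_congr fun k => ?_
        rw [arrives_iff hn (hfol n (Nat.odd_iff.1 ho))])
    rw [hδ] at h7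
    exact h7
  · exact (hmer m (by omega)).1
  · -- (3)
    refine inv_rel (fun n => mer_T (m : ℤ) n) (hmerD m (by omega)) (fun n ho => ?_)
    rw [merge_iff ho.pos (by omega) (hfol n (Nat.odd_iff.1 ho)) (hfol m hm)]
    exact Iff.rfl
  · -- (4)
    refine inv_rel wild_T hwD (fun n ho => ?_)
    rw [fol_tendsto ho.pos (hfol n (Nat.odd_iff.1 ho))]
    exact Iff.rfl
  · rw [hw0]
    constructor
    · intro h n hn hcon
      rw [fol_tendsto (by omega) (hfol n hn), ← Pool.Agent.H723R2.LSW.wandering_iff] at hcon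
      exact h n (by omega) hcon
    · intro h n hn hcon
      rw [Pool.Agent.H723R2.LSW.wandering_iff] at hcon
      -- go to the odd part
      have key : ∀ m : ℕ, 1 ≤ m → Wild (m : ℤ) → False := by
        intro m
        induction m using Nat.strong_induction_on with
        | _ m ih =>
          intro hm hwm
          rcases Nat.mod_two_eq_zero_or_one m with h6 | h6
          · refine ih (m / 2) (by omega) (by omega) ?_
            have h7 := (wild_T (m : ℤ)).1 hwm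
            have h8 : Pool.Agent.H723R2.LSW.T (m : ℤ) = ((m / 2 : ℕ) : ℤ) := by
              unfold Pool.Agent.H723R2.LSW.T
              rw [if_pos (by omega)]
              push_cast
              rfl
            rw [h8] at h7
            exact h7
          · exact h m h6 ((fol_tendsto hm (hfol m h6)).2 hwm)
      obtain ⟨m, rfl⟩ := Int.eq_ofNat_of_zero_le (show 0 ≤ n by omega)
      exact key m (by omega) hcon
  · have h6 := cycEquiv.hasSum_iff.2 hsum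
    exact h6
  · obtain ⟨ϑ, t0, H⟩ := PO_sets (of_at hP) ε hε
    refine ⟨ϑ, t0, fun α hα => ?_⟩
    obtain ⟨X0, H⟩ := H α hα
    exact ⟨X0, fun X M r hX h1 h2 h3 h4 A B hAB => H X M r hX h1 h2 h3 h4 A B hAB.1 hAB.2⟩
  · obtain ⟨ϑ, t0, H⟩ := PO_exists (of_at hP) c₀ hc₀ hl
    refine ⟨ϑ, t0, fun α hα => ?_⟩
    obtain ⟨X0, H⟩ := H α hα
    exact ⟨X0, fun X M r hX h1 h2 h3 h4 A B hAB => H X M r hX h1 h2 h3 h4 A B hAB.1 hAB.2⟩

end Pool.Agent.Results.MP_a247fa_nt.CriticalPointsAtProducts
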