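import Pool.Agent.Results.MP_a247fa_nt.OddCriticalPoints
import Pool.Agent.X266.CD.OddC

set_option autoImplicit false

/-!
# Critical orbits of Chamberland's map and the digits in odd bases

For odd `n` let `c n` be the critical point of Chamberland's map `f` in `(n, n + 1/2)`. Let `q 1, ..., q r` be
pairwise coprime odd bases and let `W i` be strongly additive functions of the digits in base `q i`, for example the
sums of the digits. The critical points attracted by the two known cycles, those whose orbits tend to infinity and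
those whose orbits merge with a given critical orbit have the same relative density in all nondegenerate classes of
odd `n` given by the residues of the `W i n`, with a power saving which is uniform over all functions of the critical
orbits; the same holds for the law of the arrival times. Each such class decides the questions whether all these
critical points have a known fate and whether some critical orbit tends to infinity, and gives upper bounds for all
arrival times, also with exceptional sets of `C X ^ (1 - θ)` elements up to `X`.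

Method: the orbit of `c n` follows the `3x+1` orbit of `n` (starting results). A dispersion argument: for
`2 ^ k ≤ X ^ (1 / 16)` these functions of the orbit of `n > √X` are functions of `T^k(n)` and the number of odd
terms before it. For each value of this number the number of the fibres times their range is about `X`, so that
every power saving, on average over `h`, for the correlations of the digital functions at `n` and `n + h` in residue
classes modulo `2 ^ k` is a saving for the sum. The last assertions follow from this with the function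
`n ↦ [n reaches a]` and a uniform lower bound for the number of the odd `n` in `(X / 2, X]` which reach `a`.
-/

namespace Pool.Agent.Results.MP_a247fa_nt.DigitClasses

open Filter Topology

/-- Chamberland's map. -/
noncomputable def f (x : ℝ) : ℝ := x + 1 / 4 - (2 * x + 1) / 4 * Real.cos (Real.pi * x)

/-- The `3x+1` map. -/
def T (n : ℕ) : ℕ := if n % 2 = 0 then n / 2 else (3 * n + 1) / 2

/-- Points of attracting cycles contained in `(0,∞)`. -/
def AttractingPoint (y : ℝ) : Prop :=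
  0 < y ∧ 0 < Function.minimalPeriod f y ∧ |deriv (f^[Function.minimalPeriod f y]) y| < 1

/-- The orbit of `x` converges to the cycle of `y`. -/
def Attracts (y x : ℝ) : Prop :=
  ∃ j : ℕ, Tendsto (fun k : ℕ => f^[k * Function.minimalPeriod f y + j] x) atTop (𝓝 y)

/-- `x` is attracted by the cycle `A₁ = {1, 2}` or by the cycle `A₂ = {a, f a}`, or its orbit ends in a
point of `[1.02, 1.05]` of period two. -/
def KnownFate (a x : ℝ) : Prop :=
  Attracts 1 x ∨ Attracts a x ∨ ∃ K, f^[K] x ∈ Set.Icc (1.02 : ℝ) 1.05 ∧ f^[K + 2] x = f^[K] x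

/-- The orbit of `x` is below `2` for the first time at time `k`. -/
def Arrives (k : ℕ) (x : ℝ) : Prop := f^[k] x < 2 ∧ ∀ i < k, 2 ≤ f^[i] x

/-- The orbit of `x` is below `2` for the first time at a time which is at most `y`. -/
def ArrivesBy (y x : ℝ) : Prop := ∃ k : ℕ, Arrives k x ∧ (k : ℝ) ≤ y

/-- The number of the odd integers among the integral parts of the first `k` points of the orbit of `x`. -/
noncomputable def oddParts (k : ℕ) (x : ℝ) : ℕ := ((Finset.range k).filter fun i => ⌊f^[i] x⌋ % 2 = 1).card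

/-- The orbits of `x` and `y` have, from some times on, the same integral parts. -/
def Merge (x y : ℝ) : Prop := ∃ i j : ℕ, ∀ k : ℕ, ⌊f^[k + i] x⌋ = ⌊f^[k + j] y⌋

/-- `2 log n / log (4/3) + x * log 3 * √(2 log n / (log (4/3))^3)` -/
noncomputable def bound (x : ℝ) (n : ℕ) : ℝ :=
  2 / Real.log (4 / 3) * Real.log n +
    x * (Real.log 3 * Real.sqrt (2 * Real.log n / Real.log (4 / 3) ^ 3))

/-- The distribution function of the standard normal law. -/
noncomputable def Phi (x : ℝ) : ℝ :=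
  ProbabilityTheory.cdf (ProbabilityTheory.gaussianReal 0 1) x

/-- The orbit of `z` is below `2` for the first time at a time `k` which is at most `bound x n` and congruent to
`κ` modulo `q`, and the number of the odd integral parts before this time is congruent to `ω` modulo `q`. -/
def Level (q : ℕ) (κ ω : ℤ) (x : ℝ) (n : ℕ) (z : ℝ) : Prop :=
  ∃ k : ℕ, Arrives k z ∧ (k : ℝ) ≤ bound x n ∧ (k : ℤ) ≡ κ [ZMOD q] ∧ (oddParts k z : ℤ) ≡ ω [ZMOD q]

/-- `F` is bounded by one on the odd `n`, and either `F n = F m` whenever the orbits of `c n` and `c m` merge, or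
`F n` is a function, bounded by one, of the time at which the orbit of `c n` is below `2` for the first time and of
the number of odd integral parts before this time (and constant on the `n` for which there is no such time). -/
def Orbital (c : ℕ → ℝ) (F : ℕ → ℝ) : Prop :=
  ((∀ n, Odd n → |F n| ≤ 1) ∧ ∀ n m, Odd n → Odd m → Merge (c n) (c m) → F n = F m) ∨
  ∃ (φ : ℕ → ℕ → ℝ) (φ₀ : ℝ), (∀ k o, |φ k o| ≤ 1) ∧ |φ₀| ≤ 1 ∧
    ∀ n, Odd n → (∀ k, Arrives k (c n) → F n = φ k (oddParts k (c n))) ∧ ((∀ k, ¬ Arrives k (c n)) → F n = φ₀)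

/-- `W` is a strongly additive function of the digits in base `q`, for example the sum of the digits. -/
def Additive (q : ℕ) (W : ℕ → ℤ) : Prop := ∀ n r, r < q → W (q * n + r) = W n + W r

/-- The greatest common divisor of `m` and of the numbers `W r - r W 1`, `0 ≤ r ≤ q`. For the sum of the
digits it is the greatest common divisor of `m` and `q - 1`. -/
def obstruction (q : ℕ) (W : ℕ → ℤ) (m : ℕ) : ℕ :=
  Nat.gcd m ((Finset.range (q + 1)).gcd fun r => (W r - r * W 1).natAbs)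

/-- The set of the `n` with `W i n ≡ a i` modulo `m i` for all `i`, and `n ≡ b` modulo `2 M`. -/
def Class {r : ℕ} (m : Fin r → ℕ) (W : Fin r → ℕ → ℤ) (a : Fin r → ℤ) (M : ℕ) (b : ℤ) : Set ℕ :=
  {n | (∀ i, (m i : ℤ) ∣ W i n - a i) ∧ ((2 * M : ℕ) : ℤ) ∣ n - b}

open Classical in
/-- The sum of `F n` over the `n ≤ X` in `E`. -/
noncomputable def total (F : ℕ → ℝ) (E : Set ℕ) (X : ℕ) : ℝ :=
  ∑ n ∈ (Finset.Icc 1 X).filter (fun n => n ∈ E), F n

/-- The number of the `n ≤ X` in `E` with the property `P`. -/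
noncomputable def count (E : Set ℕ) (P : ℕ → Prop) (X : ℕ) : ℕ := {n : ℕ | 1 ≤ n ∧ n ≤ X ∧ n ∈ E ∧ P n}.ncard

open Pool.Agent.Y965.PL Pool.Agent.X266.CD Pool.Agent.Y55.DS
open Pool.Agent.H723R2.LSW (Mer Wild)
open Pool.Agent.Y965.PS (Tz)
open Pool.Agent.H499R2.LT (odn Dn_iff)
open Pool.Agent.H499R2.ND (Dn)

theorem zT (k n : ℕ) : Pool.Agent.H723R2.LSW.T^[k] (n : ℤ) = ((T^[k] n : ℕ) : ℤ) :=
  Tz_iter_nat k n

theorem T_iter_pos {n : ℕ} (hn : 1 ≤ n) (k : ℕ) : 1 ≤ T^[k] n :=
  Pool.Agent.H934R2.Ch.T_iter_pos hn k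

/-- orbits which follow `T` -/
def Fol (n : ℕ) (x : ℝ) : Prop := ∀ k : ℕ, ((T^[k] n : ℕ) : ℝ) ≤ f^[k] x ∧
  f^[k] x ≤ (T^[k] n : ℕ) + 5 / (6 * (2 * ((T^[k] n : ℕ) : ℝ) + 1))

theorem fol_floor {n : ℕ} (hn : 1 ≤ n) {x : ℝ} (h : Fol n x) (k : ℕ) : ⌊f^[k] x⌋ = (T^[k] n : ℕ) := by
  obtain ⟨h1, h2⟩ := h k
  have h3 : (1 : ℝ) ≤ (T^[k] n : ℕ) := by exact_mod_cast T_iter_pos hn k
  have h4 : 5 / (6 * (2 * ((T^[k] n : ℕ) : ℝ) + 1)) < 1 := by
    rw [div_lt_one (by positivity)]
    linarith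
  rw [Int.floor_eq_iff]
  push_cast
  constructor
  · exact h1
  · linarith

theorem merge_iff {n m : ℕ} (hn : 1 ≤ n) (hm : 1 ≤ m) {x y : ℝ} (hx : Fol n x) (hy : Fol m y) :
    Merge x y ↔ Mer (n : ℤ) (m : ℤ) := by
  constructor
  · rintro ⟨i, j, h⟩
    have h1 := h 0
    rw [Nat.zero_add, Nat.zero_add, fol_floor hn hx, fol_floor hm hy] at h1
    exact ⟨i, j, by rw [zT, zT]; exact h1⟩
  · rintro ⟨i, j, h⟩
    refine ⟨i, j, fun k => ?_⟩
    rw [fol_floor hn hx, fol_floor hm hy]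
    rw [← zT, ← zT, Function.iterate_add_apply, Function.iterate_add_apply, h]

theorem arr_iff {n : ℕ} (hn : 1 ≤ n) {x : ℝ} (h : Fol n x) (k : ℕ) : f^[k] x < 2 ↔ T^[k] n = 1 := by
  have h1 := T_iter_pos hn k
  have h2 := h k
  constructor
  · intro h3
    have h4 : ((T^[k] n : ℕ) : ℝ) < 2 := lt_of_le_of_lt h2.1 h3
    have h5 : T^[k] n < 2 := by exact_mod_cast h4
    omega
  · intro h3
    rw [h3] at h2
    have h4 := h2.2
    norm_num at h4
    linarith

theorem arrives_iff {n : ℕ} (hn : 1 ≤ n) {x : ℝ} (h : Fol n x) (k : ℕ) :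
    Arrives k x ↔ Pool.Agent.H499R2.HL.H k n := by
  show (f^[k] x < 2 ∧ ∀ i < k, 2 ≤ f^[i] x) ↔ (T^[k] n = 1 ∧ ∀ i < k, T^[i] n ≠ 1)
  rw [arr_iff hn h k]
  refine and_congr_right fun _ => forall₂_congr fun i _ => ?_
  rw [← not_lt, arr_iff hn h i]

theorem oddParts_eq {n : ℕ} (hn : 1 ≤ n) {x : ℝ} (h : Fol n x) (k : ℕ) : oddParts k x = odn k n := by
  unfold oddParts Pool.Agent.H499R2.LT.odn
  congr 1
  apply Finset.filter_congr
  intro i _
  rw [fol_floor hn h]
  show ((T^[i] n : ℕ) : ℤ) % 2 = 1 ↔ T^[i] n % 2 = 1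
  omega

theorem fol_tendsto {n : ℕ} (hn : 1 ≤ n) {x : ℝ} (h : Fol n x) :
    Tendsto (fun k : ℕ => f^[k] x) atTop atTop ↔ Wild (n : ℤ) := by
  constructor
  · intro h1
    by_contra hcon
    obtain ⟨k, p, c, hp, hc, hk⟩ := Pool.Agent.H723R2.LSW.tame_hits hcon
    -- the orbit is periodic from time `k` on
    have hc0 : c = ((T^[k] n : ℕ) : ℤ) := by rw [← hk, zT]
    set m := T^[k] n with hm
    have hper : T^[p] m = m := by
      have h2 := zT p m
      rw [← hc0, hc, hc0] at h2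
      exact_mod_cast h2.symm
    have hperi : ∀ i : ℕ, T^[p * i] m = m := by
      intro i
      rw [Function.iterate_mul]
      exact Function.iterate_fixed hper i
    have h3 : ∀ i : ℕ, f^[p * i + k] x ≤ m + 1 := by
      intro i
      have h4 := (h (p * i + k)).2
      have h5 : T^[p * i + k] n = m := by
        rw [Function.iterate_add_apply, ← hm, hperi]
      rw [h5] at h4
      have h6 : 5 / (6 * (2 * (m : ℝ) + 1)) ≤ 1 := by
        rw [div_le_one (by positivity)]
        have : (1 : ℝ) ≤ m := by exact_mod_cast T_iter_pos hn k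
        linarith
      linarith
    have h7 : Tendsto (fun i : ℕ => p * i + k) atTop atTop :=
      tendsto_atTop_mono (fun i => by
        show i ≤ p * i + k
        have := Nat.le_mul_of_pos_left i hp
        omega) tendsto_id
    have h8 := (h1.comp h7).eventually_ge_atTop ((m : ℝ) + 2)
    obtain ⟨i, hi⟩ := h8.exists
    have h9 := h3 i
    have h10 : (m : ℝ) + 2 ≤ f^[p * i + k] x := hi
    linarith
  · intro h1
    have hinj : Function.Injective (fun k : ℕ => T^[k] n) := by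
      intro i j hij
      apply h1 i j
      rw [zT, zT]
      exact_mod_cast hij
    have h2 : Tendsto (fun k : ℕ => T^[k] n) atTop atTop := by
      have h3 := hinj.tendsto_cofinite
      rwa [Nat.cofinite_eq_atTop] at h3
    have h4 : Tendsto (fun k : ℕ => ((T^[k] n : ℕ) : ℝ)) atTop atTop :=
      tendsto_natCast_atTop_atTop.comp h2
    exact tendsto_atTop_mono (fun k => (h k).1) h4

theorem all_of_odd (hP : ∀ n : ℕ, n % 2 = 1 → ∃ k, T^[k] n = 1) : ∀ n : ℕ, 1 ≤ n → ∃ k, T^[k] n = 1 := by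
  intro n
  induction n using Nat.strong_induction_on with
  | _ n ih =>
    intro hn
    rcases Nat.mod_two_eq_zero_or_one n with h | h
    · obtain ⟨k, hk⟩ := ih (n / 2) (by omega) (by omega)
      refine ⟨k + 1, ?_⟩
      rw [Function.iterate_succ_apply]
      have : T n = n / 2 := by unfold T; rw [if_pos h]
      rw [this, hk]
    · exact hP n h

theorem reach_one (n : ℕ) : Mer (n : ℤ) ((1 : ℕ) : ℤ) ↔ ∃ k, T^[k] n = 1 := by
  rw [reach_iff (a := ((1 : ℕ) : ℤ)) (p := 2) (by norm_num) (by rfl)]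
  refine exists_congr fun k => ?_
  have h := zT k n
  rw [show (Tz 1)^[k] (n : ℤ) = Pool.Agent.H723R2.LSW.T^[k] (n : ℤ) from rfl, h]
  exact_mod_cast Iff.rfl

theorem count_eq (E : Set ℕ) (P : ℕ → Prop) (X : ℕ) :
    (count E P X : ℝ) = ∑ n ∈ Finset.Icc 1 X, ind (fun n => n ∈ E) n * ind P n := count_sum X (fun n => n ∈ E) P

theorem odd_of {M : ℕ} {b : ℤ} (hb : Odd b) {n : ℕ} (h : ((2 * M : ℕ) : ℤ) ∣ n - b) : n % 2 = 1 := by
  obtain ⟨w, hw⟩ := h
  obtain ⟨s, hs⟩ := hb
  push_cast at hw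
  have : (n : ℤ) = 2 * (M * w + s) + 1 := by rw [hs] at hw; linarith
  omega

/-- sums over a set of odd integers only depend on the values there -/
theorem sum_odd_congr {E : ℕ → Prop} (hE : ∀ n, E n → n % 2 = 1) {F G : ℕ → ℝ} (h : ∀ n, n % 2 = 1 → F n = G n)
    (X : ℕ) : ∑ n ∈ Finset.Icc 1 X, ind E n * F n = ∑ n ∈ Finset.Icc 1 X, ind E n * G n := by
  apply Finset.sum_congr rfl
  intro n _
  by_cases hn : E n
  · rw [h n (hE n hn)]
  · rw [ind_neg hn, zero_mul, zero_mul]

theorem total_eq (F : ℕ → ℝ) {r : ℕ} (m : Fin r → ℕ) (W : Fin r → ℕ → ℤ) (a : Fin r → ℤ) (M : ℕ) (b : ℤ) (X : ℕ) :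
    total F (Class m W a M b) X = ∑ n ∈ Finset.Icc 1 X, ind (Cl m W a (2 * M) b) n * F n := by
  classical
  unfold total
  rw [sum_wt]
  rfl

open Classical in
/-- functions of the critical orbits are functions of the `3x+1` orbits -/
theorem orbital_eq {c : ℕ → ℝ} (hfol : ∀ n : ℕ, n % 2 = 1 → Fol n (c n)) {F : ℕ → ℝ} (hF : Orbital c F) :
    (∃ G : ℤ → ℝ, (∀ x, |G x| ≤ 1) ∧ (∀ x, G (Tz 1 x) = G x) ∧ ∀ n : ℕ, n % 2 = 1 → F n = G (1 * n)) ∨
    (∃ (g : ℕ → ℕ → ℝ) (g0 : ℝ), (∀ k o, |g k o| ≤ 1) ∧ |g0| ≤ 1 ∧ ∀ n : ℕ, n % 2 = 1 → F n = Fg g g0 n) := by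
  rcases hF with ⟨h1, h2⟩ | ⟨φ, φ₀, h1, h2, h3⟩
  · left
    set G : ℤ → ℝ := fun x => if h : ∃ n : ℕ, n % 2 = 1 ∧ Mer x (n : ℤ) then F h.choose else 0 with hG
    have hval : ∀ (x : ℤ) (n : ℕ), n % 2 = 1 → Mer x (n : ℤ) → G x = F n := by
      intro x n hn hx
      have h : ∃ n : ℕ, n % 2 = 1 ∧ Mer x (n : ℤ) := ⟨n, hn, hx⟩
      have e : G x = F h.choose := by rw [hG]; exact dif_pos h
      rw [e]
      obtain ⟨g1, g2⟩ := h.choose_spec
      refine h2 _ _ (Nat.odd_iff.2 g1) (Nat.odd_iff.2 hn) ?_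
      exact (merge_iff (by omega) (by omega) (hfol _ g1) (hfol _ hn)).2 (g2.symm.trans hx)
    have hzero : ∀ x : ℤ, (¬ ∃ n : ℕ, n % 2 = 1 ∧ Mer x (n : ℤ)) → G x = 0 := by
      intro x h
      rw [hG]; exact dif_neg h
    refine ⟨G, fun x => ?_, fun x => ?_, fun n hn => ?_⟩
    · by_cases h : ∃ n : ℕ, n % 2 = 1 ∧ Mer x (n : ℤ)
      · obtain ⟨n, hn, hx⟩ := h
        rw [hval x n hn hx]; exact h1 n (Nat.odd_iff.2 hn)
      · rw [hzero x h]; simp
    · have hm : Mer x (Tz 1 x) := ⟨1, 0, rfl⟩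
      by_cases h : ∃ n : ℕ, n % 2 = 1 ∧ Mer x (n : ℤ)
      · obtain ⟨n, hn, hx⟩ := h
        rw [hval x n hn hx, hval _ n hn (hm.symm.trans hx)]
      · rw [hzero x h, hzero]
        rintro ⟨n, hn, hx⟩
        exact h ⟨n, hn, hm.trans hx⟩
    · rw [one_mul]
      exact (hval n n hn (Mer.refl _)).symm
  · right
    refine ⟨φ, φ₀, h1, h2, fun n hn => ?_⟩
    have hn1 : 1 ≤ n := by omega
    by_cases h : ∃ k, Pool.Agent.H499R2.HL.H k n
    · obtain ⟨k, hk⟩ := h
      rw [Fg_H hk, (h3 n (Nat.odd_iff.2 hn)).1 k ((arrives_iff hn1 (hfol n hn) k).2 hk), oddParts_eq hn1 (hfol n hn)]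
    · rw [Fg_not h]
      exact (h3 n (Nat.odd_iff.2 hn)).2 fun k hk => h ⟨k, (arrives_iff hn1 (hfol n hn) k).1 hk⟩

/-- CRITICAL ORBITS AND DIGITS. For odd `n` let `c n` be the critical point of `f` in `(n, n + 1/2)`. There are
numbers `w`, `β m` with `β m > 0` for odd `m`; `β 1 = 1` if and only if all `c n` are of known fate (attracted by `A₁`
or `A₂`, or ending in a point of `[1.02, 1.05]` of period two), and if and only if the `3x+1` conjecture holds; and
`w = 0` if and only if the orbit of no `c n` tends to infinity.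

Let `q 1, ..., q r` be pairwise coprime odd bases, let `W i` be a strongly additive integer valued function of the
digits in base `q i` and let `m i` be positive integers.

(1) (Uniform transfer.) For `M ≥ 1` there are `K` and `κ > 0` such that for all functions `F` with `Orbital c F`, all
residues `a i`, all odd `b` and all `X ≥ 1`, the sum of `F n` over the `n ≤ X` with `W i n ≡ a i` modulo `m i` for all
`i` and `n ≡ b` modulo `2 M` is, up to `K X ^ (1 - κ)`, the product of the `g i / m i` times the sum over the `n ≤ X`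
with `W i 1 n ≡ a i` modulo `g i` and `n ≡ b` modulo `2 M`; here `g i` is the greatest common divisor of `m i` and
the `W i r - r W i 1`, `0 ≤ r ≤ q i`.

Let now all the `g i` be `1`, let `E` be the set of the odd `n` with `W i n ≡ a i` modulo `m i` for all `i`, and let
`ρ` be the product of the `1 / m i`.

(2) (Densities.) The `n ∈ E` for which `c n` is of known fate have the density `ρ β 1 / 2`, those for which the orbits
of `c n` and `c m` merge have the density `ρ β m / 2` (`m` odd), and those for which the orbit of `c n` tends to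
infinity have the density `ρ w / 2`.

(3) (Arrival times.) The `n ∈ E` for which the orbit of `c n` is below `2` for the first time at a time which is at
most `bound x n` and congruent to `s` modulo `k`, after a number of odd integral parts congruent to `t` modulo `k`,
have the density `ρ β 1 Φ(x) / k ^ 2 / 2`.

(4) All `c n` are of known fate if and only if for every `ε > 0` there are arbitrarily large `X` such that this
fails for at most `ε X` of the `n ≤ X` in `E`; no critical orbit `c n` tends to infinity if and only if for every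
`ε > 0` there are arbitrarily large `X` such that this fails for at most `ε X` of the `n ≤ X` in `E`.

(5) For `θ > 0` and `C` there is `K` such that for every set `B` with at most `C X ^ (1 - θ)` elements in `E` up to
every `X`: for every odd `m` not divisible by three there are `z ∈ E`, `z ∉ B`, `m ≤ z ≤ K m ^ K` and
`j ≤ K (1 + log m)` such that the `j`-th iterate of `c z` has the integral part `m`; and for every odd `m` there is
`z ∈ E`, `z ∉ B`, `1 ≤ z ≤ K m ^ K`, such that the orbits of `c z` and `c m` merge.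

(6) For `θ > 0` and `C` there is `K` such that for every nondecreasing function `ψ`: if for every `X` all but
`C X ^ (1 - θ)` of the orbits of the `c n`, `n ≤ X`, `n ∈ E`, are below `2` at the time `ψ(n)` at the latest, then all
orbits of the `c n` are below `2` at the time `ψ(K n ^ K) + K (1 + log n)` at the latest. -/
theorem result : ∃ (a : ℝ) (c : ℕ → ℝ) (w : ℝ) (β : ℕ → ℝ),
    (a ∈ Set.Icc (1.19 : ℝ) 1.196 ∧ f (f a) = a ∧
      ∀ y, y = 1 ∨ y = 2 ∨ y = a ∨ y = f a → AttractingPoint y) ∧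
    (∀ n : ℕ, n % 2 = 1 → (n : ℝ) < c n ∧ c n < n + 1 / 2 ∧ deriv f (c n) = 0 ∧
      ∀ x : ℝ, (n : ℝ) < x → x < n + 1 / 2 → deriv f x = 0 → x = c n) ∧
    (β 1 = 1 ↔ ∀ n : ℕ, n % 2 = 1 → KnownFate a (c n)) ∧
    (β 1 = 1 ↔ ∀ n : ℕ, 1 ≤ n → ∃ k : ℕ, T^[k] n = 1) ∧
    (∀ m : ℕ, m % 2 = 1 → 0 < β m) ∧
    (w = 0 ↔ ∀ n : ℕ, n % 2 = 1 → ¬ Tendsto (fun k : ℕ => f^[k] (c n)) atTop atTop) ∧
    ∀ (r : ℕ) (q : Fin r → ℕ), (∀ i, 3 ≤ q i ∧ Odd (q i)) → (∀ i j, i ≠ j → Nat.Coprime (q i) (q j)) →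
    ∀ W : Fin r → ℕ → ℤ, (∀ i, Additive (q i) (W i)) → ∀ m : Fin r → ℕ, (∀ i, 1 ≤ m i) →
    (∀ M : ℕ, 1 ≤ M → ∃ K κ : ℝ, 0 < κ ∧ ∀ F : ℕ → ℝ, Orbital c F →
      ∀ (a₀ : Fin r → ℤ) (b : ℤ), Odd b → ∀ X : ℕ, 1 ≤ X →
        |total F (Class m W a₀ M b) X - (∏ i, (obstruction (q i) (W i) (m i) : ℝ) / m i) *
          total F (Class (fun i => obstruction (q i) (W i) (m i)) (fun i n => n * W i 1) a₀ M b) X|
          ≤ K * (X : ℝ) ^ (1 - κ)) ∧
    ((∀ i, obstruction (q i) (W i) (m i) = 1) → ∀ (a₀ : Fin r → ℤ) (E : Set ℕ) (ρ : ℝ),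
      E = {n | Odd n ∧ ∀ i, (m i : ℤ) ∣ W i n - a₀ i} → ρ = ∏ i, 1 / (m i : ℝ) →
      (Tendsto (fun X : ℕ => (count E (fun n => KnownFate a (c n)) X : ℝ) / X) atTop (𝓝 (ρ * β 1 / 2)) ∧
        (∀ l : ℕ, l % 2 = 1 →
          Tendsto (fun X : ℕ => (count E (fun n => Merge (c n) (c l)) X : ℝ) / X) atTop (𝓝 (ρ * β l / 2))) ∧
        Tendsto (fun X : ℕ => (count E (fun n => Tendsto (fun k : ℕ => f^[k] (c n)) atTop atTop) X : ℝ) / X) atTop
          (𝓝 (ρ * w / 2))) ∧
      (∀ (k : ℕ) (s t : ℤ) (x : ℝ), 1 ≤ k →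
        Tendsto (fun X : ℕ => (count E (fun n => Level k s t x n (c n)) X : ℝ) / X) atTop
          (𝓝 (ρ * β 1 * Phi x / k ^ 2 / 2))) ∧
      (((∀ n : ℕ, n % 2 = 1 → KnownFate a (c n)) ↔
          ∀ ε : ℝ, 0 < ε → ∃ᶠ X : ℕ in atTop, (count E (fun n => ¬ KnownFate a (c n)) X : ℝ) ≤ ε * X) ∧
        ((∀ n : ℕ, n % 2 = 1 → ¬ Tendsto (fun k : ℕ => f^[k] (c n)) atTop atTop) ↔
          ∀ ε : ℝ, 0 < ε → ∃ᶠ X : ℕ in atTop,
            (count E (fun n => Tendsto (fun k : ℕ => f^[k] (c n)) atTop atTop) X : ℝ) ≤ ε * X)) ∧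
      (∀ θ C : ℝ, 0 < θ → ∃ K : ℝ, 1 ≤ K ∧ ∀ B : Set ℕ,
        (∀ X : ℕ, 1 ≤ X → (count E (fun n => n ∈ B) X : ℝ) ≤ C * (X : ℝ) ^ (1 - θ)) →
        (∀ l : ℕ, l % 2 = 1 → l % 3 ≠ 0 → ∃ z ∈ E, z ∉ B ∧ l ≤ z ∧ (z : ℝ) ≤ K * (l : ℝ) ^ K ∧
          ∃ j : ℕ, (j : ℝ) ≤ K * (1 + Real.log l) ∧ ⌊f^[j] (c z)⌋ = l) ∧
        (∀ l : ℕ, l % 2 = 1 → ∃ z ∈ E, z ∉ B ∧ 1 ≤ z ∧ (z : ℝ) ≤ K * (l : ℝ) ^ K ∧ Merge (c z) (c l))) ∧
      (∀ θ C : ℝ, 0 < θ → ∃ K : ℝ, ∀ ψ : ℝ → ℝ, Monotone ψ →
        (∀ X : ℕ, 1 ≤ X → (count E (fun n => ¬ ArrivesBy (ψ n) (c n)) X : ℝ) ≤ C * (X : ℝ) ^ (1 - θ)) →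
        ∀ n : ℕ, n % 2 = 1 → ArrivesBy (ψ (K * (n : ℝ) ^ K) + K * (1 + Real.log n)) (c n))) := by
  classical
  obtain ⟨a, ha, hfa, _, hattr, _, _, hodd⟩ := Pool.Agent.Results.MP_a247fa_nt.OddCriticalPoints.result
  choose! c hc1 hc2 hc3 hc4 hc5 hc6 hc7 using hodd
  have hfol : ∀ n : ℕ, n % 2 = 1 → Fol n (c n) := fun n hn k => hc5 n hn k
  have hkf : ∀ n : ℕ, n % 2 = 1 → (KnownFate a (c n) ↔ ∃ k, T^[k] n = 1) := fun n hn => (hc6 n hn).symm
  obtain ⟨w, β, hw, hw0, hmer, hbas, hsum⟩ := Pool.Agent.H723R2.LSW.main (s := 1) (Or.inl rfl)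
  have hmerD : ∀ l : ℕ, 1 ≤ l → Dn (fun n : ℕ => (n : ℤ) ∈ {x : ℤ | Mer x (l : ℤ)}) (β l) := by
    intro l hl
    have h1 := (hmer l (by omega)).2
    rw [merge_set] at h1
    have h2 := dn_of (s := 1) (Or.inl rfl) h1
    simp only [one_mul] at h2
    exact h2
  have hwD : Dn (fun n : ℕ => (n : ℤ) ∈ WI) w := by
    have h2 := dn_of (s := 1) (Or.inl rfl) hw
    simp only [one_mul] at h2
    exact h2
  obtain ⟨δ, hδ, hδ1, hδ2⟩ := nat1
  have hδβ : δ = β ((1 : ℕ) : ℤ) := by
    refine tendsto_nhds_unique hδ2 (Dn_iff (fun n _ => ?_) (hmerD 1 le_rfl))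
    exact reach_one n
  have hnorm : β ((1 : ℕ) : ℤ) ≤ 1 := by rw [← hδβ]; exact hδ.le
  have hw1 : 0 ≤ w := ge_of_tendsto' hw fun N => by positivity
  have hwt : ∀ n : ℕ, n % 2 = 1 → (Tendsto (fun k : ℕ => f^[k] (c n)) atTop atTop ↔ (n : ℤ) ∈ WI) := by
    intro n hn
    rw [fol_tendsto (by omega) (hfol n hn), WI_eq]
    exact Iff.rfl
  have hw0' : w = 0 ↔ ∀ n : ℕ, n % 2 = 1 → ¬ Tendsto (fun k : ℕ => f^[k] (c n)) atTop atTop := by
    rw [hw0]
    constructor
    · intro h n hn hcon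
      exact h n (by omega) ((hwt n hn).1 hcon)
    · intro h n hn hcon
      have hcon' : n ∈ WI := hcon
      have h3 : ∀ l : ℕ, 1 ≤ l → (l : ℤ) ∉ WI := by
        intro l
        induction l using Nat.strong_induction_on with
        | _ l ih =>
          intro hl hlW
          rcases Nat.mod_two_eq_zero_or_one l with h4 | h4
          · apply ih (l / 2) (by omega) (by omega)
            have e : Tz 1 (l : ℤ) = ((l / 2 : ℕ) : ℤ) := by
              unfold Tz
              rw [if_pos (by omega)]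
              omega
            rw [← e, WI_T]; exact hlW
          · exact h l h4 ((hwt l h4).2 hlW)
      have h4 := h3 n.toNat (by omega)
      rw [Int.toNat_of_nonneg (by omega)] at h4
      exact h4 hcon'
  have hb1 : β ((1 : ℕ) : ℤ) = 1 ↔ ∀ n : ℕ, 1 ≤ n → ∃ k : ℕ, T^[k] n = 1 := by
    rw [← hδβ]; exact hδ1
  have hb2 : β ((1 : ℕ) : ℤ) = 1 ↔ ∀ n : ℕ, n % 2 = 1 → KnownFate a (c n) := by
    rw [hb1]
    constructor
    · intro h n hn
      exact (hkf n hn).2 (h n (by omega))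
    · intro h
      exact all_of_odd fun n hn => (hkf n hn).1 (h n hn)
  refine ⟨a, c, w, fun m => β m, ⟨ha, hfa, hattr⟩, fun n hn => ⟨hc1 n hn, hc2 n hn, hc3 n hn, hc4 n hn⟩,
    hb2, hb1, fun m hm => (hmer m (by omega)).1, hw0', ?_⟩
  intro r q hq hc W hW m hm
  have hq3 : ∀ i, 3 ≤ q i := fun i => (hq i).1
  have hqd : ∀ i, Nat.Coprime 2 (q i) := fun i => Nat.coprime_two_left.2 (hq i).2
  refine ⟨fun M hM => ?_, fun hobs a₀ E ρ hE hρE => ?_⟩
  · obtain ⟨C, κ, hC, hκ0, hκ1, HT⟩ := dig_trK q hq3 hqd hc W hW m hm (M := 2 * M) (by omega)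
    obtain ⟨C', κ', hC', hκ0', hκ1', HT'⟩ := dig_tr q hq3 hqd hc W hW m hm (M := 2 * M) (by omega)
    refine ⟨C * 2 + C', min κ κ', lt_min hκ0 hκ0', fun F hF a₀ b hb X hX => ?_⟩
    have hXR : (1 : ℝ) ≤ X := by exact_mod_cast hX
    have e1 : C * 2 * (X : ℝ) ^ (1 - κ) ≤ C * 2 * (X : ℝ) ^ (1 - min κ κ') :=
      mul_le_mul_of_nonneg_left (Real.rpow_le_rpow_of_exponent_le hXR (by linarith [min_le_left κ κ'])) (by positivity)
    have e2 : C' * (X : ℝ) ^ (1 - κ') ≤ C' * (X : ℝ) ^ (1 - min κ κ') :=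
      mul_le_mul_of_nonneg_left (Real.rpow_le_rpow_of_exponent_le hXR (by linarith [min_le_right κ κ'])) hC'
    have e3 : 0 ≤ C * 2 * (X : ℝ) ^ (1 - min κ κ') := by positivity
    have e4 : 0 ≤ C' * (X : ℝ) ^ (1 - min κ κ') := by positivity
    rw [total_eq, total_eq]
    have o1 : ∀ n, Cl m W a₀ (2 * M) b n → n % 2 = 1 := fun n hn => odd_of hb hn.2
    have o2 : ∀ n, Cl (fun i => obs (q i) (W i) (m i)) (fun i n => n * W i 1) a₀ (2 * M) b n → n % 2 = 1 :=
      fun n hn => odd_of hb hn.2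
    rcases orbital_eq hfol hF with ⟨G, g1, g2, g3⟩ | ⟨g, g0, g1, g2, g3⟩
    · have h1 := (HT a₀ b).inv hX (s := 1) (Or.inl rfl) g1 g2
      unfold Tr at h1
      rw [← sum_odd_congr o1 g3, ← sum_odd_congr o2 g3] at h1
      rw [add_mul]
      exact h1.trans (by linarith)
    · have h1 := HT' a₀ b X hX g g0 g1 g2
      unfold Tr at h1
      rw [← sum_odd_congr o1 g3, ← sum_odd_congr o2 g3] at h1
      rw [add_mul]
      exact h1.trans (by linarith)
  · obtain ⟨C, κ, hC, hκ0, hκ1, HT⟩ := dig_trK1 q hq3 hqd hc W hW m hm hobs (M := 2) (by norm_num)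
    have HTK : TrK (ind (Cl m W a₀ 2 1)) (ind (fun n => n % 2 = 1)) (∏ i, (1 / (m i : ℝ))) C κ := by
      have h := HT a₀ 1
      rw [ind_odd] at h
      exact h
    obtain ⟨C', κ', hC', hκ0', hκ1', HT1⟩ := dig_tr1 q hq3 hqd hc W hW m hm hobs (M := 2) (by norm_num)
    have HTF : ∀ N : ℕ, 1 ≤ N → TrF (ind (Cl m W a₀ 2 1)) (ind (fun n => n % 2 = 1)) (∏ i, (1 / (m i : ℝ)))
        (C' * (N : ℝ) ^ (1 - κ')) N := by
      intro N hN
      have h := HT1 a₀ 1 N hN
      rw [ind_odd] at h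
      exact h
    have hEc : ∀ n, n ∈ E ↔ Cl m W a₀ 2 1 n := by
      intro n
      rw [hE]
      unfold Cl
      rw [Set.mem_ofPred_eq, and_comm]
      apply and_congr_right
      intro _
      rw [Nat.odd_iff]
      omega
    have hEi : ind (fun n => n ∈ E) = ind (Cl m W a₀ 2 1) := by
      funext n; exact ind_congr (hEc n)
    have hEo : ∀ n, Cl m W a₀ 2 1 n → n % 2 = 1 := by
      intro n hn
      have := hn.2
      omega
    have hρ : 0 < ∏ i, (1 / (m i : ℝ)) := Finset.prod_pos fun i _ => by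
      have : (0 : ℝ) < m i := by exact_mod_cast (hm i)
      positivity
    rw [← hρE] at hρ HTK HTF
    have hdens : ∀ (S : Set ℤ) (d : ℝ) (P : ℕ → Prop), (∀ x, Tz 1 x ∈ S ↔ x ∈ S) → Dn (fun n : ℕ => (n : ℤ) ∈ S) d →
        (∀ n : ℕ, n % 2 = 1 → (P n ↔ (n : ℤ) ∈ S)) →
        Tendsto (fun X : ℕ => (count E P X : ℝ) / X) atTop (𝓝 (ρ * d / 2)) := by
      intro S d P hS hd hP
      have h1 := dens_odd hS hd hκ0 HTK
      unfold Mn at h1
      rw [mul_div_assoc]
      refine h1.congr fun X => ?_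
      rw [count_eq, hEi]
      congr 1
      exact (sum_odd_congr hEo (fun n hn => ind_congr (hP n hn)) X).symm
    have hpos : ∀ (P : ℕ → Prop) (d : ℝ), 0 < d → Tendsto (fun X : ℕ => (count E P X : ℝ) / X) atTop (𝓝 d) →
        ¬ ∀ ε : ℝ, 0 < ε → ∃ᶠ X : ℕ in atTop, (count E P X : ℝ) ≤ ε * X := by
      intro P d hd h hcon
      obtain ⟨X, h2, h3, h4⟩ := ((hcon (d / 2) (by positivity)).and_eventually
        ((h.eventually_const_lt (show d / 2 < d by linarith)).and (eventually_ge_atTop 1))).exists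
      have hX : (0 : ℝ) < X := by exact_mod_cast h4
      rw [lt_div_iff₀ hX] at h3
      linarith
    have hzero : ∀ (P : ℕ → Prop), (∀ n : ℕ, n % 2 = 1 → ¬ P n) →
        ∀ ε : ℝ, 0 < ε → ∃ᶠ X : ℕ in atTop, (count E P X : ℝ) ≤ ε * X := by
      intro P hP ε hε
      apply Filter.Eventually.frequently
      filter_upwards with X
      rw [count_eq]
      have h0 : ∑ n ∈ Finset.Icc 1 X, ind (fun n => n ∈ E) n * ind P n = 0 := by
        apply Finset.sum_eq_zero
        intro n _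
        by_cases hn : n ∈ E
        · rw [ind_neg (P := P) (hP n (hEo n ((hEc n).1 hn))), mul_zero]
        · rw [ind_neg (P := fun n => n ∈ E) hn, zero_mul]
      rw [h0]
      positivity
    have hreach : ∀ n : ℕ, n % 2 = 1 → (KnownFate a (c n) ↔ (n : ℤ) ∈ {x : ℤ | Mer x ((1 : ℕ) : ℤ)}) := by
      intro n hn
      rw [hkf n hn]
      exact (reach_one n).symm
    have hD1 := hdens {x : ℤ | Mer x ((1 : ℕ) : ℤ)} _ _ (Mer_T _) (hmerD 1 le_rfl) hreach
    have hD2 := hdens WI w _ WI_T hwD hwt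
    have hD3 := hdens {x : ℤ | Mer x ((1 : ℕ) : ℤ)}ᶜ (1 - β ((1 : ℕ) : ℤ)) (fun n => ¬ KnownFate a (c n))
      (fun x => not_congr (Mer_T _ x)) (Dn_not (hmerD 1 le_rfl)) (fun n hn => not_congr (hreach n hn))
    have hR := rich_dig q hq3 hqd hc W hW m hm hobs (M := 2) (by norm_num) a₀ 1
    refine ⟨⟨hD1, fun l hl => ?_, hD2⟩, ?_, ⟨?_, ?_⟩, ?_, ?_⟩
    · refine hdens {x : ℤ | Mer x (l : ℤ)} _ _ (Mer_T _) (hmerD l (by omega)) fun n hn => ?_
      exact merge_iff (by omega) (by omega) (hfol n hn) (hfol l hl)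
    · intro k s t x hk
      have h1 := dens_of (A := 2 / Real.log (4 / 3)) (b := bK) (val := valK) (cls := clsK k s t)
        (d := fun x => δ / k ^ 2 * Pool.Agent.H499R2.ND.Phi x / 2) (by have := nu_pos'; positivity) bK_pos
        ((Pool.Agent.H499R2.ND.Phi_continuous.const_mul _).div_const _)
        (v := ind (fun n => n % 2 = 1)) (w := ind (Cl m W a₀ 2 1)) (fun n => ⟨ind_nonneg _ _, ind_le_one _ _⟩)
        (fun n => ind_nonneg _ _) (fun y => lawK_odd hδ k s t hk y) hρ.le hC' hκ0' hκ1' HTF x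
      have e : Pool.Agent.H499R2.ND.Phi x = Phi x := Pool.Agent.H499R2.ND.phi_cdf x
      simp only [e, hδβ] at h1
      unfold Mn at h1
      have e2 : ρ * (β ((1 : ℕ) : ℤ) / (k : ℝ) ^ 2 * Phi x / 2) = ρ * β ((1 : ℕ) : ℤ) * Phi x / k ^ 2 / 2 := by ring
      rw [e2] at h1
      refine h1.congr fun X => ?_
      rw [count_eq, hEi]
      congr 1
      refine (sum_odd_congr hEo (fun n hn => ?_) X).symm
      apply ind_congr
      have hn1 : 1 ≤ n := by omega
      unfold Level Lv valK clsK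
      refine exists_congr fun j => ?_
      rw [arrives_iff hn1 (hfol n hn), oddParts_eq hn1 (hfol n hn)]
      have e3 : bound x n = th (2 / Real.log (4 / 3)) bK x n := by
        unfold bound bK
        rw [th_eq]
      rw [e3]
    · constructor
      · intro h
        exact hzero _ fun n hn hcon => hcon (h n hn)
      · intro h
        by_contra hcon
        have hlt : β ((1 : ℕ) : ℤ) < 1 := lt_of_le_of_ne hnorm fun h1 => hcon (hb2.1 h1)
        exact hpos _ _ (half_pos (mul_pos hρ (sub_pos.2 hlt))) hD3 h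
    · constructor
      · intro h
        exact hzero _ h
      · intro h
        rw [← hw0']
        by_contra hcon
        have hlt : 0 < w := lt_of_le_of_ne hw1 (Ne.symm hcon)
        exact hpos _ _ (half_pos (mul_pos hρ hlt)) hD2 h
    · intro θ C₀ hθ
      obtain ⟨K, hK, HK⟩ := pred_odd (C := C₀) hR hθ
      refine ⟨K, hK, fun B hB => ?_⟩
      obtain ⟨g1, g2⟩ := HK (fun n => n ∈ B) (fun X hX => by
        have h1 := hB X hX
        rw [count_eq, hEi] at h1
        rw [sub_zero]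
        exact h1)
      refine ⟨fun l hl hl3 => ?_, fun l hl => ?_⟩
      · obtain ⟨z, hz1, hz2, hz3, hz4, j, hj1, hj2⟩ := g1 l hl hl3
        refine ⟨z, (hEc z).2 hz1, hz2, hz3, hz4, j, hj1, ?_⟩
        have hzo := hEo z hz1
        rw [fol_floor (by omega) (hfol z hzo)]
        exact_mod_cast hj2
      · obtain ⟨z, i, j, hz1, hz2, hz3, hz4, hi, hj, hij⟩ := g2 l hl
        refine ⟨z, (hEc z).2 hz1, hz2, hz3, hz4, ?_⟩
        have hzo := hEo z hz1
        refine (merge_iff (by omega) (by omega) (hfol z hzo) (hfol l hl)).2 ⟨j, i, ?_⟩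
        rw [zT, zT]
        exact_mod_cast hij
    · intro θ C₀ hθ
      have hB := baseLB_odd (B := fun n : ℕ => ((2 : ℕ) : ℤ) ∣ n - 1) (fun n hn => by omega)
      obtain ⟨K, hK, HK⟩ := suff_ind hR hB (B' := fun n => n % 2 = 1) hN_odd adv_K (C0 := C₀) hθ
      have harr : ∀ (n : ℕ) (y : ℝ), n % 2 = 1 → (ArrivesBy y (c n) ↔
          ∃ k, Pool.Agent.H499R2.HL.H k n ∧ valK k (odn k n) ≤ y) := by
        intro n y hn
        refine exists_congr fun k => ?_
        rw [arrives_iff (by omega) (hfol n hn)]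
        exact Iff.rfl
      refine ⟨K, fun ψ hψ hbad n hn => ?_⟩
      rw [harr n _ hn]
      refine HK ψ hψ (fun X hX => ?_) n (by omega) hn
      have h1 := hbad X hX
      rw [count_eq, hEi] at h1
      rw [sub_zero]
      refine le_trans (le_of_eq ?_) h1
      refine sum_odd_congr hEo (fun n hn => ?_) X
      exact ind_congr (not_congr (harr n _ hn).symm)

end Pool.Agent.Results.MP_a247fa_nt.DigitClasses
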