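import Pool.Agent.Results.MP_a247fa_nt.OddCriticalPoints
import Pool.Agent.X266.CD.OddC

set_option autoImplicit false

/-!
# Critical orbits of Chamberland's map and fractional parts of polynomials

For odd `n` let `c n` be the critical point of Chamberland's map `f` in `(n, n + 1/2)`. Let `α` be irrational and not
a Liouville number and let `P` be a real polynomial of degree `k ≥ 2` with leading coefficient `α`. The critical
points attracted by the two known cycles, those whose orbits tend to infinity and those whose orbits merge with a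
given critical orbit are equidistributed with respect to the fractional part of `P n`, with a power saving which is
uniform over all functions of the critical orbits, over the polynomials and over the intervals; the same holds for
the law of the arrival times. Each of the sparse sets of the odd `n` with `{P n} < n ^ (-ν)` decides the questions
whether all these critical points have a known fate and whether some critical orbit tends to infinity, and gives
upper bounds for all arrival times, also with exceptional sets of `C X ^ (1 - ν - θ)` elements up to `X`.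

Method: the orbit of `c n` follows the `3x+1` orbit of `n` (starting results). A dispersion argument: for
`2 ^ k ≤ X ^ (1 / 16)` these functions of the orbit of `n > √X` are functions of `T^k(n)` and the number of odd
terms before it. For each value of this number the number of the fibres times their range is about `X`, so that
every power saving, on average over `h`, for the correlations of the phases `P` at `n` and `n + h` in residue
classes modulo `2 ^ k` is a saving for the sum. The last assertions follow from this with the function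
`n ↦ [n reaches a]` and a uniform lower bound for the number of the odd `n` in `(X / 2, X]` which reach `a`.
-/

namespace Pool.Agent.Results.MP_a247fa_nt.FractionalParts

open Filter Topology

/-- Chamberland's map. -/
noncomputable def f (x : ℝ) : ℝ := x + 1 / 4 - (2 * x + 1) / 4 * Real.cos (Real.pi * x)

/-- The `3x+1` map. -/
def T (n : ℕ) : ℕ := if n % 2 = 0 then n / 2 else (3 * n + 1) / 2

/-- Points of attracting cycles contained in `(0,∞)`. -/
def AttractingPoint (y : ℝ) : Prop :=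
  0 < y ∧ 0 < Function.minimalPeriod f y ∧ |deriv (f^[Function.minimalPeriod f y]) y| < 1

/-- The orbit of `x` converges to the cycle of `y`. -/
def Attracts (y x : ℝ) : Prop :=
  ∃ j : ℕ, Tendsto (fun k : ℕ => f^[k * Function.minimalPeriod f y + j] x) atTop (𝓝 y)

/-- `x` is attracted by the cycle `A₁ = {1, 2}` or by the cycle `A₂ = {a, f a}`, or its orbit ends in a
point of `[1.02, 1.05]` of period two. -/
def KnownFate (a x : ℝ) : Prop :=
  Attracts 1 x ∨ Attracts a x ∨ ∃ K, f^[K] x ∈ Set.Icc (1.02 : ℝ) 1.05 ∧ f^[K + 2] x = f^[K] x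

/-- The orbit of `x` is below `2` for the first time at time `k`. -/
def Arrives (k : ℕ) (x : ℝ) : Prop := f^[k] x < 2 ∧ ∀ i < k, 2 ≤ f^[i] x

/-- The orbit of `x` is below `2` for the first time at a time which is at most `y`. -/
def ArrivesBy (y x : ℝ) : Prop := ∃ k : ℕ, Arrives k x ∧ (k : ℝ) ≤ y

/-- The number of the odd integers among the integral parts of the first `k` points of the orbit of `x`. -/
noncomputable def oddParts (k : ℕ) (x : ℝ) : ℕ := ((Finset.range k).filter fun i => ⌊f^[i] x⌋ % 2 = 1).card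

/-- The orbits of `x` and `y` have, from some times on, the same integral parts. -/
def Merge (x y : ℝ) : Prop := ∃ i j : ℕ, ∀ k : ℕ, ⌊f^[k + i] x⌋ = ⌊f^[k + j] y⌋

/-- `2 log n / log (4/3) + x * log 3 * √(2 log n / (log (4/3))^3)` -/
noncomputable def bound (x : ℝ) (n : ℕ) : ℝ :=
  2 / Real.log (4 / 3) * Real.log n +
    x * (Real.log 3 * Real.sqrt (2 * Real.log n / Real.log (4 / 3) ^ 3))

/-- The distribution function of the standard normal law. -/
noncomputable def Phi (x : ℝ) : ℝ :=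
  ProbabilityTheory.cdf (ProbabilityTheory.gaussianReal 0 1) x

/-- The orbit of `z` is below `2` for the first time at a time `k` which is at most `bound x n` and congruent to
`κ` modulo `q`, and the number of the odd integral parts before this time is congruent to `ω` modulo `q`. -/
def Level (q : ℕ) (κ ω : ℤ) (x : ℝ) (n : ℕ) (z : ℝ) : Prop :=
  ∃ k : ℕ, Arrives k z ∧ (k : ℝ) ≤ bound x n ∧ (k : ℤ) ≡ κ [ZMOD q] ∧ (oddParts k z : ℤ) ≡ ω [ZMOD q]

/-- `F` is bounded by one on the odd `n`, and either `F n = F m` whenever the orbits of `c n` and `c m` merge, or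
`F n` is a function, bounded by one, of the time at which the orbit of `c n` is below `2` for the first time and of
the number of odd integral parts before this time (and constant on the `n` for which there is no such time). -/
def Orbital (c : ℕ → ℝ) (F : ℕ → ℝ) : Prop :=
  ((∀ n, Odd n → |F n| ≤ 1) ∧ ∀ n m, Odd n → Odd m → Merge (c n) (c m) → F n = F m) ∨
  ∃ (φ : ℕ → ℕ → ℝ) (φ₀ : ℝ), (∀ k o, |φ k o| ≤ 1) ∧ |φ₀| ≤ 1 ∧
    ∀ n, Odd n → (∀ k, Arrives k (c n) → F n = φ k (oddParts k (c n))) ∧ ((∀ k, ¬ Arrives k (c n)) → F n = φ₀)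

/-- `α` is irrational and not a Liouville number. -/
def Diophantine (α : ℝ) : Prop :=
  ∃ A c : ℝ, 0 < c ∧ ∀ l : ℕ, 1 ≤ l → ∀ a : ℤ, c * (l : ℝ) ^ (-A) ≤ |l * α - a|

/-- The set of the odd `n` for which the fractional part of `P n` is in `[u, v)`. -/
def Part (P : Polynomial ℝ) (u v : ℝ) : Set ℕ :=
  {n | Odd n ∧ u ≤ Int.fract (P.eval (n : ℝ)) ∧ Int.fract (P.eval (n : ℝ)) < v}

/-- The set of the odd `n` for which the fractional part of `P n` is less than `n ^ (-ν)`. -/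
def Sparse (P : Polynomial ℝ) (ν : ℝ) : Set ℕ := {n | Odd n ∧ Int.fract (P.eval (n : ℝ)) < (n : ℝ) ^ (-ν)}

open Classical in
/-- The sum of `F n` over the `n ≤ X` in `E` with `n ≡ b` modulo `2 M`. -/
noncomputable def total (F : ℕ → ℝ) (M : ℕ) (b : ℤ) (E : Set ℕ) (X : ℕ) : ℝ :=
  ∑ n ∈ (Finset.Icc 1 X).filter (fun n : ℕ => n ∈ E ∧ ((2 * M : ℕ) : ℤ) ∣ n - b), F n

/-- The number of the `n ≤ X` in `E` with the property `P`. -/
noncomputable def count (E : Set ℕ) (P : ℕ → Prop) (X : ℕ) : ℕ := {n : ℕ | 1 ≤ n ∧ n ≤ X ∧ n ∈ E ∧ P n}.ncard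

open Pool.Agent.Y965.PL Pool.Agent.X266.CD Pool.Agent.Y55.DS
open Pool.Agent.H723R2.LSW (Mer Wild)
open Pool.Agent.Y965.PS (Tz)
open Pool.Agent.H499R2.LT (odn Dn_iff)
open Pool.Agent.H499R2.ND (Dn)

theorem zT (k n : ℕ) : Pool.Agent.H723R2.LSW.T^[k] (n : ℤ) = ((T^[k] n : ℕ) : ℤ) :=
  Tz_iter_nat k n

theorem T_iter_pos {n : ℕ} (hn : 1 ≤ n) (k : ℕ) : 1 ≤ T^[k] n :=
  Pool.Agent.H934R2.Ch.T_iter_pos hn k

/-- orbits which follow `T` -/
def Fol (n : ℕ) (x : ℝ) : Prop := ∀ k : ℕ, ((T^[k] n : ℕ) : ℝ) ≤ f^[k] x ∧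
  f^[k] x ≤ (T^[k] n : ℕ) + 5 / (6 * (2 * ((T^[k] n : ℕ) : ℝ) + 1))

theorem fol_floor {n : ℕ} (hn : 1 ≤ n) {x : ℝ} (h : Fol n x) (k : ℕ) : ⌊f^[k] x⌋ = (T^[k] n : ℕ) := by
  obtain ⟨h1, h2⟩ := h k
  have h3 : (1 : ℝ) ≤ (T^[k] n : ℕ) := by exact_mod_cast T_iter_pos hn k
  have h4 : 5 / (6 * (2 * ((T^[k] n : ℕ) : ℝ) + 1)) < 1 := by
    rw [div_lt_one (by positivity)]
    linarith
  rw [Int.floor_eq_iff]
  push_cast
  constructor
  · exact h1
  · linarith

theorem merge_iff {n m : ℕ} (hn : 1 ≤ n) (hm : 1 ≤ m) {x y : ℝ} (hx : Fol n x) (hy : Fol m y) :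
    Merge x y ↔ Mer (n : ℤ) (m : ℤ) := by
  constructor
  · rintro ⟨i, j, h⟩
    have h1 := h 0
    rw [Nat.zero_add, Nat.zero_add, fol_floor hn hx, fol_floor hm hy] at h1
    exact ⟨i, j, by rw [zT, zT]; exact h1⟩
  · rintro ⟨i, j, h⟩
    refine ⟨i, j, fun k => ?_⟩
    rw [fol_floor hn hx, fol_floor hm hy]
    rw [← zT, ← zT, Function.iterate_add_apply, Function.iterate_add_apply, h]

theorem arr_iff {n : ℕ} (hn : 1 ≤ n) {x : ℝ} (h : Fol n x) (k : ℕ) : f^[k] x < 2 ↔ T^[k] n = 1 := by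
  have h1 := T_iter_pos hn k
  have h2 := h k
  constructor
  · intro h3
    have h4 : ((T^[k] n : ℕ) : ℝ) < 2 := lt_of_le_of_lt h2.1 h3
    have h5 : T^[k] n < 2 := by exact_mod_cast h4
    omega
  · intro h3
    rw [h3] at h2
    have h4 := h2.2
    norm_num at h4
    linarith

theorem arrives_iff {n : ℕ} (hn : 1 ≤ n) {x : ℝ} (h : Fol n x) (k : ℕ) :
    Arrives k x ↔ Pool.Agent.H499R2.HL.H k n := by
  show (f^[k] x < 2 ∧ ∀ i < k, 2 ≤ f^[i] x) ↔ (T^[k] n = 1 ∧ ∀ i < k, T^[i] n ≠ 1)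
  rw [arr_iff hn h k]
  refine and_congr_right fun _ => forall₂_congr fun i _ => ?_
  rw [← not_lt, arr_iff hn h i]

theorem oddParts_eq {n : ℕ} (hn : 1 ≤ n) {x : ℝ} (h : Fol n x) (k : ℕ) : oddParts k x = odn k n := by
  unfold oddParts Pool.Agent.H499R2.LT.odn
  congr 1
  apply Finset.filter_congr
  intro i _
  rw [fol_floor hn h]
  show ((T^[i] n : ℕ) : ℤ) % 2 = 1 ↔ T^[i] n % 2 = 1
  omega

theorem fol_tendsto {n : ℕ} (hn : 1 ≤ n) {x : ℝ} (h : Fol n x) :
    Tendsto (fun k : ℕ => f^[k] x) atTop atTop ↔ Wild (n : ℤ) := by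
  constructor
  · intro h1
    by_contra hcon
    obtain ⟨k, p, c, hp, hc, hk⟩ := Pool.Agent.H723R2.LSW.tame_hits hcon
    -- the orbit is periodic from time `k` on
    have hc0 : c = ((T^[k] n : ℕ) : ℤ) := by rw [← hk, zT]
    set m := T^[k] n with hm
    have hper : T^[p] m = m := by
      have h2 := zT p m
      rw [← hc0, hc, hc0] at h2
      exact_mod_cast h2.symm
    have hperi : ∀ i : ℕ, T^[p * i] m = m := by
      intro i
      rw [Function.iterate_mul]
      exact Function.iterate_fixed hper i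
    have h3 : ∀ i : ℕ, f^[p * i + k] x ≤ m + 1 := by
      intro i
      have h4 := (h (p * i + k)).2
      have h5 : T^[p * i + k] n = m := by
        rw [Function.iterate_add_apply, ← hm, hperi]
      rw [h5] at h4
      have h6 : 5 / (6 * (2 * (m : ℝ) + 1)) ≤ 1 := by
        rw [div_le_one (by positivity)]
        have : (1 : ℝ) ≤ m := by exact_mod_cast T_iter_pos hn k
        linarith
      linarith
    have h7 : Tendsto (fun i : ℕ => p * i + k) atTop atTop :=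
      tendsto_atTop_mono (fun i => by
        show i ≤ p * i + k
        have := Nat.le_mul_of_pos_left i hp
        omega) tendsto_id
    have h8 := (h1.comp h7).eventually_ge_atTop ((m : ℝ) + 2)
    obtain ⟨i, hi⟩ := h8.exists
    have h9 := h3 i
    have h10 : (m : ℝ) + 2 ≤ f^[p * i + k] x := hi
    linarith
  · intro h1
    have hinj : Function.Injective (fun k : ℕ => T^[k] n) := by
      intro i j hij
      apply h1 i j
      rw [zT, zT]
      exact_mod_cast hij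
    have h2 : Tendsto (fun k : ℕ => T^[k] n) atTop atTop := by
      have h3 := hinj.tendsto_cofinite
      rwa [Nat.cofinite_eq_atTop] at h3
    have h4 : Tendsto (fun k : ℕ => ((T^[k] n : ℕ) : ℝ)) atTop atTop :=
      tendsto_natCast_atTop_atTop.comp h2
    exact tendsto_atTop_mono (fun k => (h k).1) h4

theorem all_of_odd (hP : ∀ n : ℕ, n % 2 = 1 → ∃ k, T^[k] n = 1) : ∀ n : ℕ, 1 ≤ n → ∃ k, T^[k] n = 1 := by
  intro n
  induction n using Nat.strong_induction_on with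
  | _ n ih =>
    intro hn
    rcases Nat.mod_two_eq_zero_or_one n with h | h
    · obtain ⟨k, hk⟩ := ih (n / 2) (by omega) (by omega)
      refine ⟨k + 1, ?_⟩
      rw [Function.iterate_succ_apply]
      have : T n = n / 2 := by unfold T; rw [if_pos h]
      rw [this, hk]
    · exact hP n h

theorem reach_one (n : ℕ) : Mer (n : ℤ) ((1 : ℕ) : ℤ) ↔ ∃ k, T^[k] n = 1 := by
  rw [reach_iff (a := ((1 : ℕ) : ℤ)) (p := 2) (by norm_num) (by rfl)]
  refine exists_congr fun k => ?_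
  have h := zT k n
  rw [show (Tz 1)^[k] (n : ℤ) = Pool.Agent.H723R2.LSW.T^[k] (n : ℤ) from rfl, h]
  exact_mod_cast Iff.rfl

theorem count_eq (E : Set ℕ) (P : ℕ → Prop) (X : ℕ) :
    (count E P X : ℝ) = ∑ n ∈ Finset.Icc 1 X, ind (fun n => n ∈ E) n * ind P n := count_sum X (fun n => n ∈ E) P

theorem odd_of {M : ℕ} {b : ℤ} (hb : Odd b) {n : ℕ} (h : ((2 * M : ℕ) : ℤ) ∣ n - b) : n % 2 = 1 := by
  obtain ⟨w, hw⟩ := h
  obtain ⟨s, hs⟩ := hb
  push_cast at hw
  have : (n : ℤ) = 2 * (M * w + s) + 1 := by rw [hs] at hw; linarith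
  omega

/-- sums over a set of odd integers only depend on the values there -/
theorem sum_odd_congr {E : ℕ → Prop} (hE : ∀ n, E n → n % 2 = 1) {F G : ℕ → ℝ} (h : ∀ n, n % 2 = 1 → F n = G n)
    (X : ℕ) : ∑ n ∈ Finset.Icc 1 X, ind E n * F n = ∑ n ∈ Finset.Icc 1 X, ind E n * G n := by
  apply Finset.sum_congr rfl
  intro n _
  by_cases hn : E n
  · rw [h n (hE n hn)]
  · rw [ind_neg hn, zero_mul, zero_mul]

theorem total_eq (F : ℕ → ℝ) (M : ℕ) {b : ℤ} (hb : Odd b) (P : Polynomial ℝ) (u v : ℝ) (X : ℕ) :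
    total F M b (Part P u v) X = ∑ n ∈ Finset.Icc 1 X, ind (Fr (2 * M) b P u v) n * F n := by
  classical
  unfold total
  rw [sum_wt]
  apply Finset.sum_congr rfl
  intro n _
  congr 1
  apply ind_congr
  constructor
  · rintro ⟨⟨-, h1, h2⟩, h3⟩; exact ⟨h3, h1, h2⟩
  · rintro ⟨h1, h2, h3⟩; exact ⟨⟨Nat.odd_iff.2 (odd_of hb h1), h2, h3⟩, h1⟩

theorem total_odd (F : ℕ → ℝ) (M : ℕ) {b : ℤ} (hb : Odd b) (X : ℕ) :
    total F M b {n | Odd n} X = ∑ n ∈ Finset.Icc 1 X, ind (fun n => ((2 * M : ℕ) : ℤ) ∣ n - b) n * F n := by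
  classical
  unfold total
  rw [sum_wt]
  apply Finset.sum_congr rfl
  intro n _
  congr 1
  apply ind_congr
  constructor
  · rintro ⟨-, h⟩; exact h
  · intro h; exact ⟨Nat.odd_iff.2 (odd_of hb h), h⟩

open Classical in
/-- functions of the critical orbits are functions of the `3x+1` orbits -/
theorem orbital_eq {c : ℕ → ℝ} (hfol : ∀ n : ℕ, n % 2 = 1 → Fol n (c n)) {F : ℕ → ℝ} (hF : Orbital c F) :
    (∃ G : ℤ → ℝ, (∀ x, |G x| ≤ 1) ∧ (∀ x, G (Tz 1 x) = G x) ∧ ∀ n : ℕ, n % 2 = 1 → F n = G (1 * n)) ∨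
    (∃ (g : ℕ → ℕ → ℝ) (g0 : ℝ), (∀ k o, |g k o| ≤ 1) ∧ |g0| ≤ 1 ∧ ∀ n : ℕ, n % 2 = 1 → F n = Fg g g0 n) := by
  rcases hF with ⟨h1, h2⟩ | ⟨φ, φ₀, h1, h2, h3⟩
  · left
    set G : ℤ → ℝ := fun x => if h : ∃ n : ℕ, n % 2 = 1 ∧ Mer x (n : ℤ) then F h.choose else 0 with hG
    have hval : ∀ (x : ℤ) (n : ℕ), n % 2 = 1 → Mer x (n : ℤ) → G x = F n := by
      intro x n hn hx
      have h : ∃ n : ℕ, n % 2 = 1 ∧ Mer x (n : ℤ) := ⟨n, hn, hx⟩
      have e : G x = F h.choose := by rw [hG]; exact dif_pos h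
      rw [e]
      obtain ⟨g1, g2⟩ := h.choose_spec
      refine h2 _ _ (Nat.odd_iff.2 g1) (Nat.odd_iff.2 hn) ?_
      exact (merge_iff (by omega) (by omega) (hfol _ g1) (hfol _ hn)).2 (g2.symm.trans hx)
    have hzero : ∀ x : ℤ, (¬ ∃ n : ℕ, n % 2 = 1 ∧ Mer x (n : ℤ)) → G x = 0 := by
      intro x h
      rw [hG]; exact dif_neg h
    refine ⟨G, fun x => ?_, fun x => ?_, fun n hn => ?_⟩
    · by_cases h : ∃ n : ℕ, n % 2 = 1 ∧ Mer x (n : ℤ)
      · obtain ⟨n, hn, hx⟩ := h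
        rw [hval x n hn hx]; exact h1 n (Nat.odd_iff.2 hn)
      · rw [hzero x h]; simp
    · have hm : Mer x (Tz 1 x) := ⟨1, 0, rfl⟩
      by_cases h : ∃ n : ℕ, n % 2 = 1 ∧ Mer x (n : ℤ)
      · obtain ⟨n, hn, hx⟩ := h
        rw [hval x n hn hx, hval _ n hn (hm.symm.trans hx)]
      · rw [hzero x h, hzero]
        rintro ⟨n, hn, hx⟩
        exact h ⟨n, hn, hm.trans hx⟩
    · rw [one_mul]
      exact (hval n n hn (Mer.refl _)).symm
  · right
    refine ⟨φ, φ₀, h1, h2, fun n hn => ?_⟩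
    have hn1 : 1 ≤ n := by omega
    by_cases h : ∃ k, Pool.Agent.H499R2.HL.H k n
    · obtain ⟨k, hk⟩ := h
      rw [Fg_H hk, (h3 n (Nat.odd_iff.2 hn)).1 k ((arrives_iff hn1 (hfol n hn) k).2 hk), oddParts_eq hn1 (hfol n hn)]
    · rw [Fg_not h]
      exact (h3 n (Nat.odd_iff.2 hn)).2 fun k hk => h ⟨k, (arrives_iff hn1 (hfol n hn) k).1 hk⟩

/-- CRITICAL ORBITS AND FRACTIONAL PARTS. For odd `n` let `c n` be the critical point of `f` in `(n, n + 1/2)`. There
are numbers `w`, `β m` with `β m > 0` for odd `m`; `β 1 = 1` if and only if all `c n` are of known fate (attracted by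
`A₁` or `A₂`, or ending in a point of `[1.02, 1.05]` of period two), and if and only if the `3x+1` conjecture holds;
and `w = 0` if and only if the orbit of no `c n` tends to infinity.

Let `k ≥ 2` and let `α` be irrational and not a Liouville number. All the polynomials `P` below have degree `k` and
the leading coefficient `α`.

(1) (Uniform transfer.) For `M ≥ 1` there are `K` and `κ > 0` such that for all functions `F` with `Orbital c F`, all
`P`, `0 ≤ u ≤ v ≤ 1`, odd `b` and `X ≥ 1`, the sum of `F n` over the `n ≤ X`, `n ≡ b` modulo `2 M`, with the fractional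
part of `P n` in `[u, v)` is, up to `K X ^ (1 - κ)`, `v - u` times the sum over all `n ≤ X`, `n ≡ b` modulo `2 M`.

There are `K` and `κ > 0` such that for every `ε > 0` and all large `X`, for all `P` and `0 ≤ u ≤ v ≤ 1` at once,
with the error `ε (v - u) X + K X ^ (1 - κ)`:

(2) (Densities.) The number of the odd `n ≤ X` with the fractional part of `P n` in `[u, v)` for which `c n` is of
known fate is `(v - u) β 1 / 2 * X`, that of those for which the orbits of `c n` and `c m` merge is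
`(v - u) β m / 2 * X` (`m` odd), and that of those for which the orbit of `c n` tends to infinity is
`(v - u) w / 2 * X`.

(3) (Arrival times.) The number of the odd `n ≤ X` with the fractional part of `P n` in `[u, v)` for which the orbit
of `c n` is below `2` for the first time at a time which is at most `bound x n` and congruent to `s` modulo `l`, after
a number of odd integral parts congruent to `t` modulo `l`, is `(v - u) β 1 Φ(x) / l ^ 2 / 2 * X`.

There is `ν₀ > 0`, depending on `k` and `α` only, such that for all `P` and `0 ≤ ν < ν₀`, with `S` the set of the odd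
`n` for which the fractional part of `P n` is less than `n ^ (-ν)`:

(4) All `c n` are of known fate if and only if for every `ε > 0` there are arbitrarily large `X` such that this
fails for at most `ε X ^ (1 - ν)` of the `n ≤ X` in `S`; no critical orbit `c n` tends to infinity if and only if for
every `ε > 0` there are arbitrarily large `X` such that this fails for at most `ε X ^ (1 - ν)` of the `n ≤ X` in `S`.

(5) For `θ > 0` and `C` there is `K` such that for every set `B` with at most `C X ^ (1 - ν - θ)` elements in `S` up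
to every `X`: for every odd `m` not divisible by three there are `z ∈ S`, `z ∉ B`, `m ≤ z ≤ K m ^ K` and
`j ≤ K (1 + log m)` such that the `j`-th iterate of `c z` has the integral part `m`; and for every odd `m` there is
`z ∈ S`, `z ∉ B`, `1 ≤ z ≤ K m ^ K`, such that the orbits of `c z` and `c m` merge.

(6) For `θ > 0` and `C` there is `K` such that for every nondecreasing function `ψ`: if for every `X` all but
`C X ^ (1 - ν - θ)` of the orbits of the `c n`, `n ≤ X`, `n ∈ S`, are below `2` at the time `ψ(n)` at the latest, then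
all orbits of the `c n` are below `2` at the time `ψ(K n ^ K) + K (1 + log n)` at the latest. -/
theorem result : ∃ (a : ℝ) (c : ℕ → ℝ) (w : ℝ) (β : ℕ → ℝ),
    (a ∈ Set.Icc (1.19 : ℝ) 1.196 ∧ f (f a) = a ∧
      ∀ y, y = 1 ∨ y = 2 ∨ y = a ∨ y = f a → AttractingPoint y) ∧
    (∀ n : ℕ, n % 2 = 1 → (n : ℝ) < c n ∧ c n < n + 1 / 2 ∧ deriv f (c n) = 0 ∧
      ∀ x : ℝ, (n : ℝ) < x → x < n + 1 / 2 → deriv f x = 0 → x = c n) ∧
    (β 1 = 1 ↔ ∀ n : ℕ, n % 2 = 1 → KnownFate a (c n)) ∧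
    (β 1 = 1 ↔ ∀ n : ℕ, 1 ≤ n → ∃ k : ℕ, T^[k] n = 1) ∧
    (∀ m : ℕ, m % 2 = 1 → 0 < β m) ∧
    (w = 0 ↔ ∀ n : ℕ, n % 2 = 1 → ¬ Tendsto (fun k : ℕ => f^[k] (c n)) atTop atTop) ∧
    ∀ (k : ℕ) (α : ℝ), 2 ≤ k → Diophantine α →
    (∀ M : ℕ, 1 ≤ M → ∃ K κ : ℝ, 0 < κ ∧ ∀ F : ℕ → ℝ, Orbital c F →
      ∀ P : Polynomial ℝ, P.natDegree ≤ k → P.coeff k = α → ∀ u v : ℝ, 0 ≤ u → u ≤ v → v ≤ 1 →
      ∀ b : ℤ, Odd b → ∀ X : ℕ, 1 ≤ X →
        |total F M b (Part P u v) X - (v - u) * total F M b {n | Odd n} X| ≤ K * (X : ℝ) ^ (1 - κ)) ∧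
    (∃ K κ : ℝ, 0 < κ ∧ ∀ ε : ℝ, 0 < ε →
      (∃ X₀ : ℕ, ∀ X : ℕ, X₀ ≤ X →
        ∀ P : Polynomial ℝ, P.natDegree ≤ k → P.coeff k = α → ∀ u v : ℝ, 0 ≤ u → u ≤ v → v ≤ 1 →
          |(count (Part P u v) (fun n => KnownFate a (c n)) X : ℝ) - (v - u) * (β 1 / 2 * X)| ≤
            ε * (v - u) * X + K * (X : ℝ) ^ (1 - κ)) ∧
      (∀ l : ℕ, l % 2 = 1 → ∃ X₀ : ℕ, ∀ X : ℕ, X₀ ≤ X →
        ∀ P : Polynomial ℝ, P.natDegree ≤ k → P.coeff k = α → ∀ u v : ℝ, 0 ≤ u → u ≤ v → v ≤ 1 →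
          |(count (Part P u v) (fun n => Merge (c n) (c l)) X : ℝ) - (v - u) * (β l / 2 * X)| ≤
            ε * (v - u) * X + K * (X : ℝ) ^ (1 - κ)) ∧
      (∃ X₀ : ℕ, ∀ X : ℕ, X₀ ≤ X →
        ∀ P : Polynomial ℝ, P.natDegree ≤ k → P.coeff k = α → ∀ u v : ℝ, 0 ≤ u → u ≤ v → v ≤ 1 →
          |(count (Part P u v) (fun n => Tendsto (fun k : ℕ => f^[k] (c n)) atTop atTop) X : ℝ) -
            (v - u) * (w / 2 * X)| ≤ ε * (v - u) * X + K * (X : ℝ) ^ (1 - κ)) ∧
      (∀ (l : ℕ) (s t : ℤ) (x : ℝ), 1 ≤ l → ∃ X₀ : ℕ, ∀ X : ℕ, X₀ ≤ X →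
        ∀ P : Polynomial ℝ, P.natDegree ≤ k → P.coeff k = α → ∀ u v : ℝ, 0 ≤ u → u ≤ v → v ≤ 1 →
          |(count (Part P u v) (fun n => Level l s t x n (c n)) X : ℝ) - (v - u) * (β 1 * Phi x / l ^ 2 / 2 * X)| ≤
            ε * (v - u) * X + K * (X : ℝ) ^ (1 - κ))) ∧
    (∃ ν₀ : ℝ, 0 < ν₀ ∧ ∀ P : Polynomial ℝ, P.natDegree ≤ k → P.coeff k = α → ∀ ν : ℝ, 0 ≤ ν → ν < ν₀ →
      (((∀ n : ℕ, n % 2 = 1 → KnownFate a (c n)) ↔
          ∀ ε : ℝ, 0 < ε → ∃ᶠ X : ℕ in atTop,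
            (count (Sparse P ν) (fun n => ¬ KnownFate a (c n)) X : ℝ) ≤ ε * (X : ℝ) ^ (1 - ν)) ∧
        ((∀ n : ℕ, n % 2 = 1 → ¬ Tendsto (fun k : ℕ => f^[k] (c n)) atTop atTop) ↔
          ∀ ε : ℝ, 0 < ε → ∃ᶠ X : ℕ in atTop,
            (count (Sparse P ν) (fun n => Tendsto (fun k : ℕ => f^[k] (c n)) atTop atTop) X : ℝ) ≤
              ε * (X : ℝ) ^ (1 - ν))) ∧
      (∀ θ C : ℝ, 0 < θ → ∃ K : ℝ, 1 ≤ K ∧ ∀ B : Set ℕ,
        (∀ X : ℕ, 1 ≤ X → (count (Sparse P ν) (fun n => n ∈ B) X : ℝ) ≤ C * (X : ℝ) ^ (1 - ν - θ)) →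
        (∀ l : ℕ, l % 2 = 1 → l % 3 ≠ 0 → ∃ z ∈ Sparse P ν, z ∉ B ∧ l ≤ z ∧ (z : ℝ) ≤ K * (l : ℝ) ^ K ∧
          ∃ j : ℕ, (j : ℝ) ≤ K * (1 + Real.log l) ∧ ⌊f^[j] (c z)⌋ = l) ∧
        (∀ l : ℕ, l % 2 = 1 → ∃ z ∈ Sparse P ν, z ∉ B ∧ 1 ≤ z ∧ (z : ℝ) ≤ K * (l : ℝ) ^ K ∧ Merge (c z) (c l))) ∧
      (∀ θ C : ℝ, 0 < θ → ∃ K : ℝ, ∀ ψ : ℝ → ℝ, Monotone ψ →
        (∀ X : ℕ, 1 ≤ X → (count (Sparse P ν) (fun n => ¬ ArrivesBy (ψ n) (c n)) X : ℝ) ≤
          C * (X : ℝ) ^ (1 - ν - θ)) →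
        ∀ n : ℕ, n % 2 = 1 → ArrivesBy (ψ (K * (n : ℝ) ^ K) + K * (1 + Real.log n)) (c n))) := by
  classical
  obtain ⟨a, ha, hfa, _, hattr, _, _, hodd⟩ := Pool.Agent.Results.MP_a247fa_nt.OddCriticalPoints.result
  choose! c hc1 hc2 hc3 hc4 hc5 hc6 hc7 using hodd
  have hfol : ∀ n : ℕ, n % 2 = 1 → Fol n (c n) := fun n hn k => hc5 n hn k
  have hkf : ∀ n : ℕ, n % 2 = 1 → (KnownFate a (c n) ↔ ∃ k, T^[k] n = 1) := fun n hn => (hc6 n hn).symm
  obtain ⟨w, β, hw, hw0, hmer, hbas, hsum⟩ := Pool.Agent.H723R2.LSW.main (s := 1) (Or.inl rfl)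
  have hmerD : ∀ l : ℕ, 1 ≤ l → Dn (fun n : ℕ => (n : ℤ) ∈ {x : ℤ | Mer x (l : ℤ)}) (β l) := by
    intro l hl
    have h1 := (hmer l (by omega)).2
    rw [merge_set] at h1
    have h2 := dn_of (s := 1) (Or.inl rfl) h1
    simp only [one_mul] at h2
    exact h2
  have hwD : Dn (fun n : ℕ => (n : ℤ) ∈ WI) w := by
    have h2 := dn_of (s := 1) (Or.inl rfl) hw
    simp only [one_mul] at h2
    exact h2
  obtain ⟨δ, hδ, hδ1, hδ2⟩ := nat1
  have hδβ : δ = β ((1 : ℕ) : ℤ) := by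
    refine tendsto_nhds_unique hδ2 (Dn_iff (fun n _ => ?_) (hmerD 1 le_rfl))
    exact reach_one n
  have hnorm : β ((1 : ℕ) : ℤ) ≤ 1 := by rw [← hδβ]; exact hδ.le
  have hw1 : 0 ≤ w := ge_of_tendsto' hw fun N => by positivity
  have hwt : ∀ n : ℕ, n % 2 = 1 → (Tendsto (fun k : ℕ => f^[k] (c n)) atTop atTop ↔ (n : ℤ) ∈ WI) := by
    intro n hn
    rw [fol_tendsto (by omega) (hfol n hn), WI_eq]
    exact Iff.rfl
  have hw0' : w = 0 ↔ ∀ n : ℕ, n % 2 = 1 → ¬ Tendsto (fun k : ℕ => f^[k] (c n)) atTop atTop := by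
    rw [hw0]
    constructor
    · intro h n hn hcon
      exact h n (by omega) ((hwt n hn).1 hcon)
    · intro h n hn hcon
      have hcon' : n ∈ WI := hcon
      have h3 : ∀ l : ℕ, 1 ≤ l → (l : ℤ) ∉ WI := by
        intro l
        induction l using Nat.strong_induction_on with
        | _ l ih =>
          intro hl hlW
          rcases Nat.mod_two_eq_zero_or_one l with h4 | h4
          · apply ih (l / 2) (by omega) (by omega)
            have e : Tz 1 (l : ℤ) = ((l / 2 : ℕ) : ℤ) := by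
              unfold Tz
              rw [if_pos (by omega)]
              omega
            rw [← e, WI_T]; exact hlW
          · exact h l h4 ((hwt l h4).2 hlW)
      have h4 := h3 n.toNat (by omega)
      rw [Int.toNat_of_nonneg (by omega)] at h4
      exact h4 hcon'
  have hb1 : β ((1 : ℕ) : ℤ) = 1 ↔ ∀ n : ℕ, 1 ≤ n → ∃ k : ℕ, T^[k] n = 1 := by
    rw [← hδβ]; exact hδ1
  have hb2 : β ((1 : ℕ) : ℤ) = 1 ↔ ∀ n : ℕ, n % 2 = 1 → KnownFate a (c n) := by
    rw [hb1]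
    constructor
    · intro h n hn
      exact (hkf n hn).2 (h n (by omega))
    · intro h
      exact all_of_odd fun n hn => (hkf n hn).1 (h n hn)
  refine ⟨a, c, w, fun m => β m, ⟨ha, hfa, hattr⟩, fun n hn => ⟨hc1 n hn, hc2 n hn, hc3 n hn, hc4 n hn⟩,
    hb2, hb1, fun m hm => (hmer m (by omega)).1, hw0', ?_⟩
  intro k α hk hα
  obtain ⟨k, rfl⟩ : ∃ k', k = k' + 1 := ⟨k - 1, by omega⟩
  have hk1 : 1 ≤ k := by omega
  have hα' : Dioph α := hα
  have hPo : ∀ (P : Polynomial ℝ) (u v : ℝ) (n : ℕ), n ∈ Part P u v ↔ Fr 2 1 P u v n := by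
    intro P u v n
    unfold Fr Part
    rw [Set.mem_ofPred_eq, Nat.odd_iff]
    apply and_congr_left
    intro _
    omega
  have hEi : ∀ (P : Polynomial ℝ) (u v : ℝ), ind (fun n => n ∈ Part P u v) = ind (Fr 2 1 P u v) := by
    intro P u v
    funext n
    exact ind_congr (hPo P u v n)
  have hFo : ∀ (P : Polynomial ℝ) (u v : ℝ) (n : ℕ), Fr 2 1 P u v n → n % 2 = 1 := by
    intro P u v n hn
    exact Nat.odd_iff.1 ((hPo P u v n).2 hn).1
  obtain ⟨C, κ, hC, hκ0, hκ1, HT⟩ := pol_trK hk1 hα' (M := 2) (by norm_num) 1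
  have HTK : ∀ P : Polynomial ℝ, P.natDegree ≤ k + 1 → P.coeff (k + 1) = α → ∀ u v : ℝ, 0 ≤ u → u ≤ v → v ≤ 1 →
      TrK (ind (Fr 2 1 P u v)) (ind (fun n => n % 2 = 1)) (v - u) C κ := by
    intro P hP hPc u v hu huv hv
    have h := HT P hP hPc u v hu huv hv
    rw [ind_odd] at h
    exact h
  obtain ⟨C', κ', hC', hκ0', hκ1', HT1⟩ := pol_tr hk1 hα' (M := 2) (by norm_num) 1
  have HTF : ∀ P : Polynomial ℝ, P.natDegree ≤ k + 1 → P.coeff (k + 1) = α → ∀ u v : ℝ, 0 ≤ u → u ≤ v → v ≤ 1 →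
      ∀ N : ℕ, 1 ≤ N → TrF (ind (Fr 2 1 P u v)) (ind (fun n => n % 2 = 1)) (v - u) (C' * (N : ℝ) ^ (1 - κ')) N := by
    intro P hP hPc u v hu huv hv N hN
    have h := HT1 P hP hPc u v hu huv hv N hN
    rw [ind_odd] at h
    exact h
  have hreach : ∀ n : ℕ, n % 2 = 1 → (KnownFate a (c n) ↔ (n : ℤ) ∈ {x : ℤ | Mer x ((1 : ℕ) : ℤ)}) := by
    intro n hn
    rw [hkf n hn]
    exact (reach_one n).symm
  -- sums over the odd `n` in an invariant set
  have hodd : ∀ (S : Set ℤ) (d : ℝ), (∀ x, Tz 1 x ∈ S ↔ x ∈ S) → Dn (fun n : ℕ => (n : ℤ) ∈ S) d →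
      Mn (fun n => ind (fun n => n % 2 = 1) n * ind (fun n : ℕ => (n : ℤ) ∈ S) n) (d / 2) := by
    intro S d hS hd
    have h := Mn_of_Dn (inv_odd hS hd)
    have e : ind (fun n : ℕ => n % 2 = 1 ∧ (n : ℤ) ∈ S) = fun n => ind (fun n => n % 2 = 1) n *
        ind (fun n : ℕ => (n : ℤ) ∈ S) n := by
      funext n
      exact ind_and _ _ n
    rw [e] at h
    exact h
  have htr : ∀ (S : Set ℤ), (∀ x, Tz 1 x ∈ S ↔ x ∈ S) → ∀ P : Polynomial ℝ, P.natDegree ≤ k + 1 →
      P.coeff (k + 1) = α → ∀ u v : ℝ, 0 ≤ u → u ≤ v → v ≤ 1 → ∀ X : ℕ, 1 ≤ X →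
      |∑ n ∈ Finset.Icc 1 X, ind (Fr 2 1 P u v) n * ind (fun n : ℕ => (n : ℤ) ∈ S) n -
        (v - u) * ∑ n ∈ Finset.Icc 1 X, ind (fun n => n % 2 = 1) n * ind (fun n : ℕ => (n : ℤ) ∈ S) n| ≤
        C * 2 * (X : ℝ) ^ (1 - κ) := by
    intro S hS P hP hPc u v hu huv hv X hX
    have h3 := (HTK P hP hPc u v hu huv hv).inv hX (s := 1) (Or.inl rfl) (F := fun x => if x ∈ S then 1 else 0)
      (fun x => by split_ifs <;> simp) (fun x => by
        by_cases h : x ∈ S
        · rw [if_pos h, if_pos ((hS x).2 h)]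
        · rw [if_neg h, if_neg fun h' => h ((hS x).1 h')])
    unfold Tr at h3
    have e : ∀ n : ℕ, (if (1 : ℤ) * (n : ℤ) ∈ S then (1 : ℝ) else 0) = ind (fun n : ℕ => (n : ℤ) ∈ S) n := by
      intro n
      rw [one_mul]
      by_cases h : (n : ℤ) ∈ S
      · rw [if_pos h, ind_pos (P := fun n : ℕ => (n : ℤ) ∈ S) h]
      · rw [if_neg h, ind_neg (P := fun n : ℕ => (n : ℤ) ∈ S) h]
    simp only [e] at h3
    exact h3
  refine ⟨fun M hM => ?_, ?_, ?_⟩
  · obtain ⟨K, c₀, hc₀, H⟩ : ∃ K c₀ : ℝ, 0 < c₀ ∧ ∀ b ∈ Finset.range (2 * M), Odd ((b : ℕ) : ℤ) → ∀ F : ℕ → ℝ,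
        Orbital c F → ∀ P : Polynomial ℝ, P.natDegree ≤ k + 1 → P.coeff (k + 1) = α →
        ∀ u v : ℝ, 0 ≤ u → u ≤ v → v ≤ 1 → ∀ X : ℕ, 1 ≤ X →
        |total F M b (Part P u v) X - (v - u) * total F M b {n | Odd n} X| ≤ K * (X : ℝ) ^ (1 - c₀) := by
      have h1 : ∀ b : ℕ, ∃ K c₀ : ℝ, 0 ≤ K ∧ 0 < c₀ ∧ (Odd ((b : ℕ) : ℤ) → ∀ F : ℕ → ℝ,
          Orbital c F → ∀ P : Polynomial ℝ, P.natDegree ≤ k + 1 → P.coeff (k + 1) = α →
          ∀ u v : ℝ, 0 ≤ u → u ≤ v → v ≤ 1 → ∀ X : ℕ, 1 ≤ X →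
          |total F M b (Part P u v) X - (v - u) * total F M b {n | Odd n} X| ≤ K * (X : ℝ) ^ (1 - c₀)) := by
        intro b
        obtain ⟨C₁, κ₁, hC₁, hκ₁, -, HT₁⟩ := pol_trK hk1 hα' (M := 2 * M) (by omega) (b : ℤ)
        obtain ⟨C₂, κ₂, hC₂, hκ₂, -, HT₂⟩ := pol_tr hk1 hα' (M := 2 * M) (by omega) (b : ℤ)
        refine ⟨C₁ * 2 + C₂, min κ₁ κ₂, by positivity, lt_min hκ₁ hκ₂, fun hb F hF P hP hPc u v hu huv hv X hX => ?_⟩
        have hXR : (1 : ℝ) ≤ X := by exact_mod_cast hX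
        have e1 : C₁ * 2 * (X : ℝ) ^ (1 - κ₁) ≤ C₁ * 2 * (X : ℝ) ^ (1 - min κ₁ κ₂) :=
          mul_le_mul_of_nonneg_left (Real.rpow_le_rpow_of_exponent_le hXR (by linarith [min_le_left κ₁ κ₂])) (by positivity)
        have e2 : C₂ * (X : ℝ) ^ (1 - κ₂) ≤ C₂ * (X : ℝ) ^ (1 - min κ₁ κ₂) :=
          mul_le_mul_of_nonneg_left (Real.rpow_le_rpow_of_exponent_le hXR (by linarith [min_le_right κ₁ κ₂])) hC₂
        have e3 : 0 ≤ C₁ * 2 * (X : ℝ) ^ (1 - min κ₁ κ₂) := by positivity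
        have e4 : 0 ≤ C₂ * (X : ℝ) ^ (1 - min κ₁ κ₂) := by positivity
        rw [total_eq F M hb, total_odd F M hb]
        have o1 : ∀ n, Fr (2 * M) b P u v n → n % 2 = 1 := fun n hn => odd_of hb hn.1
        have o2 : ∀ n, ((2 * M : ℕ) : ℤ) ∣ (n : ℕ) - (b : ℤ) → n % 2 = 1 := fun n hn => odd_of hb hn
        rcases orbital_eq hfol hF with ⟨G, g1, g2, g3⟩ | ⟨g, g0, g1, g2, g3⟩
        · have h1 := (HT₁ P hP hPc u v hu huv hv).inv hX (s := 1) (Or.inl rfl) g1 g2
          unfold Tr at h1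
          rw [← sum_odd_congr o1 g3, ← sum_odd_congr o2 g3] at h1
          rw [add_mul]
          exact h1.trans (by linarith)
        · have h1 := HT₂ P hP hPc u v hu huv hv X hX g g0 g1 g2
          unfold Tr at h1
          rw [← sum_odd_congr o1 g3, ← sum_odd_congr o2 g3] at h1
          rw [add_mul]
          exact h1.trans (by linarith)
      choose K c₁ hK hc₁ H using h1
      obtain ⟨c0, hc0, hc0'⟩ := exists_lower (Finset.range (2 * M)) c₁ hc₁
      refine ⟨∑ b ∈ Finset.range (2 * M), K b, c0, hc0, fun b hb hbo F hF P hP hPc u v hu huv hv X hX => ?_⟩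
      refine (H b hbo F hF P hP hPc u v hu huv hv X hX).trans ?_
      have hXR : (1 : ℝ) ≤ X := by exact_mod_cast hX
      exact mul_le_mul (Finset.single_le_sum (f := K) (fun i _ => hK i) hb)
        (Real.rpow_le_rpow_of_exponent_le hXR (by linarith [hc0' b hb])) (by positivity)
        (Finset.sum_nonneg fun i _ => hK i)
    refine ⟨K, c₀, hc₀, fun F hF P hP hPc u v hu huv hv b hb X hX => ?_⟩
    have hMz : (0 : ℤ) < ((2 * M : ℕ) : ℤ) := by exact_mod_cast (by omega : 0 < 2 * M)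
    have hb0 := Int.emod_nonneg b hMz.ne'
    have hb1 := Int.emod_lt_of_pos b hMz
    have h5 : (((b % ((2 * M : ℕ) : ℤ)).toNat : ℕ) : ℤ) = b % ((2 * M : ℕ) : ℤ) := Int.toNat_of_nonneg hb0
    have hbo : Odd (((b % ((2 * M : ℕ) : ℤ)).toNat : ℕ) : ℤ) := by
      rw [h5]
      obtain ⟨t, ht⟩ := hb
      have h6 := Int.mul_ediv_add_emod b ((2 * M : ℕ) : ℤ)
      refine ⟨t - M * (b / ((2 * M : ℕ) : ℤ)), ?_⟩
      push_cast at h6 ⊢
      linarith
    have h4 := H (b % ((2 * M : ℕ) : ℤ)).toNat (Finset.mem_range.2 (by omega)) hbo F hF P hP hPc u v hu huv hv X hX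
    have h6 : ∀ E : Set ℕ, total F M (((b % ((2 * M : ℕ) : ℤ)).toNat : ℕ) : ℤ) E X = total F M b E X := by
      intro E
      unfold total
      apply Finset.sum_congr _ fun _ _ => rfl
      apply Finset.filter_congr
      intro n _
      apply and_congr_right
      intro _
      rw [h5]
      have h7 : (n : ℤ) - b = (n - b % ((2 * M : ℕ) : ℤ)) - ((2 * M : ℕ) : ℤ) * (b / ((2 * M : ℕ) : ℤ)) := by
        have := Int.mul_ediv_add_emod b ((2 * M : ℕ) : ℤ)
        linarith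
      rw [h7]
      exact (dvd_sub_left (dvd_mul_right _ _)).symm
    rw [h6, h6] at h4
    exact h4
  · have hinv : ∀ (S : Set ℤ) (d : ℝ) (Q : ℕ → Prop), (∀ x, Tz 1 x ∈ S ↔ x ∈ S) → Dn (fun n : ℕ => (n : ℤ) ∈ S) d →
        (∀ n : ℕ, n % 2 = 1 → (Q n ↔ (n : ℤ) ∈ S)) → ∀ ε : ℝ, 0 < ε → ∃ X₀ : ℕ, ∀ X : ℕ, X₀ ≤ X →
        ∀ P : Polynomial ℝ, P.natDegree ≤ k + 1 → P.coeff (k + 1) = α → ∀ u v : ℝ, 0 ≤ u → u ≤ v → v ≤ 1 →
          |(count (Part P u v) Q X : ℝ) - (v - u) * (d / 2 * X)| ≤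
            ε * (v - u) * X + (C * 2 + C' * 2) * (X : ℝ) ^ (1 - min κ κ') := by
      intro S d Q hS hd hQ ε hε
      obtain ⟨X₀, h0⟩ := ((Mn_ev (hodd S d hS hd) hε).and (eventually_ge_atTop 1)).exists_forall_of_atTop
      refine ⟨X₀, fun X hX P hP hPc u v hu huv hv => ?_⟩
      obtain ⟨h1, h2⟩ := h0 X hX
      have hXR : (1 : ℝ) ≤ X := by exact_mod_cast h2
      have h3 := htr S hS P hP hPc u v hu huv hv X h2
      rw [count_eq, hEi, sum_odd_congr (hFo P u v) (F := ind Q) (G := ind (fun n : ℕ => (n : ℤ) ∈ S))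
        (fun n hn => ind_congr (hQ n hn)) X]
      set A := ∑ n ∈ Finset.Icc 1 X, ind (Fr 2 1 P u v) n * ind (fun n : ℕ => (n : ℤ) ∈ S) n with hA
      set D := ∑ n ∈ Finset.Icc 1 X, ind (fun n => n % 2 = 1) n * ind (fun n : ℕ => (n : ℤ) ∈ S) n with hD
      have e2 : A - (v - u) * (d / 2 * X) = (A - (v - u) * D) + (v - u) * (D - d / 2 * X) := by ring
      rw [e2]
      refine (abs_add_le _ _).trans ?_
      rw [abs_mul, abs_of_nonneg (by linarith : 0 ≤ v - u)]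
      have h4 := mul_le_mul_of_nonneg_left h1 (by linarith : 0 ≤ v - u)
      have e1 : C * 2 * (X : ℝ) ^ (1 - κ) ≤ C * 2 * (X : ℝ) ^ (1 - min κ κ') :=
        mul_le_mul_of_nonneg_left (Real.rpow_le_rpow_of_exponent_le hXR (by linarith [min_le_left κ κ'])) (by positivity)
      have e3 : 0 ≤ C' * 2 * (X : ℝ) ^ (1 - min κ κ') := by positivity
      rw [add_mul]
      linarith
    refine ⟨C * 2 + C' * 2, min κ κ', lt_min hκ0 hκ0', fun ε hε => ⟨?_, fun l hl => ?_, ?_, ?_⟩⟩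
    · exact hinv {x : ℤ | Mer x ((1 : ℕ) : ℤ)} _ _ (Mer_T _) (hmerD 1 le_rfl) hreach ε hε
    · exact hinv {x : ℤ | Mer x (l : ℤ)} _ _ (Mer_T _) (hmerD l (by omega)) (fun n hn =>
        merge_iff (by omega) (by omega) (hfol n hn) (hfol l hl)) ε hε
    · exact hinv WI w _ WI_T hwD hwt ε hε
    · intro l s t x hl
      obtain ⟨X₀, h0⟩ := law_of_tr (A := 2 / Real.log (4 / 3)) (b := bK) (val := valK) (cls := clsK l s t)
        (d := fun x => δ / l ^ 2 * Pool.Agent.H499R2.ND.Phi x / 2) (by have := nu_pos'; positivity) bK_pos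
        ((Pool.Agent.H499R2.ND.Phi_continuous.const_mul _).div_const _)
        (v := ind (fun n => n % 2 = 1)) (fun n => ⟨ind_nonneg _ _, ind_le_one _ _⟩)
        (fun y => lawK_odd hδ l s t hl y) x hε
      refine ⟨max X₀ 1, fun X hX P hP hPc u v hu huv hv => ?_⟩
      have hX1 : 1 ≤ X := (le_max_right _ _).trans hX
      have hXR : (1 : ℝ) ≤ X := by exact_mod_cast hX1
      have h1 := h0 X ((le_max_left _ _).trans hX) (ind (Fr 2 1 P u v)) (v - u) (C' * (X : ℝ) ^ (1 - κ'))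
        (fun n => ind_nonneg _ _) (by linarith) (fun M h4 h5 g g0 hg hg0 =>
          (HTF P hP hPc u v hu huv hv M h4 g g0 hg hg0).trans (pow_le hC' hκ1' h5))
      have e : Pool.Agent.H499R2.ND.Phi x = Phi x := Pool.Agent.H499R2.ND.phi_cdf x
      rw [e, hδβ] at h1
      have e2 : β ((1 : ℕ) : ℤ) / (l : ℝ) ^ 2 * Phi x / 2 = β ((1 : ℕ) : ℤ) * Phi x / l ^ 2 / 2 := by ring
      rw [e2] at h1
      have e4 : ∑ n ∈ Finset.Icc 1 X, ind (Fr 2 1 P u v) n * ind (fun n => Level l s t x n (c n)) n =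
          ∑ n ∈ Finset.Icc 1 X, ind (Fr 2 1 P u v) n *
            ind (Lv valK (clsK l s t) (th (2 / Real.log (4 / 3)) bK x)) n := by
        refine sum_odd_congr (hFo P u v) (fun n hn => ?_) X
        apply ind_congr
        have hn1 : 1 ≤ n := by omega
        unfold Level Lv valK clsK
        refine exists_congr fun j => ?_
        rw [arrives_iff hn1 (hfol n hn), oddParts_eq hn1 (hfol n hn)]
        have e3 : bound x n = th (2 / Real.log (4 / 3)) bK x n := by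
          unfold bound bK
          rw [th_eq]
        rw [e3]
      rw [count_eq, hEi, e4]
      refine h1.trans ?_
      have e5 : C' * (X : ℝ) ^ (1 - κ') ≤ C' * (X : ℝ) ^ (1 - min κ κ') :=
        mul_le_mul_of_nonneg_left (Real.rpow_le_rpow_of_exponent_le hXR (by linarith [min_le_right κ κ'])) hC'
      have e6 : 0 ≤ C * 2 * (X : ℝ) ^ (1 - min κ κ') := by positivity
      rw [add_mul]
      linarith
  · obtain ⟨ν0, hν0, hν01, HR⟩ := rich_pol hk1 hα' (M := 2) (by norm_num) 1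
    refine ⟨min ν0 κ, lt_min hν0 hκ0, fun P hP hPc ν hν1 hν2 => ?_⟩
    have hR := HR P hP hPc ν hν1 (lt_of_lt_of_le hν2 (min_le_left _ _))
    have hνκ : ν < κ := lt_of_lt_of_le hν2 (min_le_right _ _)
    have hEc : ∀ n : ℕ, n ∈ Sparse P ν ↔ (((2 : ℕ) : ℤ) ∣ n - 1 ∧ Int.fract (P.eval (n : ℝ)) < (n : ℝ) ^ (-ν)) := by
      intro n
      unfold Sparse
      rw [Set.mem_ofPred_eq]
      apply and_congr_left
      intro _
      rw [Nat.odd_iff]
      omega
    have hEs : ind (fun n => n ∈ Sparse P ν) =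
        ind (fun n : ℕ => ((2 : ℕ) : ℤ) ∣ n - 1 ∧ Int.fract (P.eval (n : ℝ)) < (n : ℝ) ^ (-ν)) := by
      funext n
      exact ind_congr (hEc n)
    have hEo : ∀ n : ℕ, (((2 : ℕ) : ℤ) ∣ n - 1 ∧ Int.fract (P.eval (n : ℝ)) < (n : ℝ) ^ (-ν)) → n % 2 = 1 := by
      rintro n ⟨h, -⟩
      omega
    -- a positive density gives many elements in the sparse set
    have hpos : ∀ (S : Set ℤ) (d : ℝ) (Q : ℕ → Prop), (∀ x, Tz 1 x ∈ S ↔ x ∈ S) → Dn (fun n : ℕ => (n : ℤ) ∈ S) d →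
        (∀ n : ℕ, n % 2 = 1 → (Q n ↔ (n : ℤ) ∈ S)) → 0 < d →
        ¬ ∀ ε : ℝ, 0 < ε → ∃ᶠ X : ℕ in atTop, (count (Sparse P ν) Q X : ℝ) ≤ ε * (X : ℝ) ^ (1 - ν) := by
      intro S d Q hS hd hQ hd0 h
      set w' : ℝ := d / 2 with hw'
      have hw'0 : 0 < w' := by positivity
      have ev1 := Mn_ev (hodd S d hS hd) (show 0 < w' / 4 by positivity)
      have ev2 := small_err (C * 2) (show 0 < κ - ν by linarith) (show 0 < w' / 4 by positivity)
      obtain ⟨X, h2, h3, h4, h5⟩ := ((h (w' / 4) (by positivity)).and_eventually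
        (ev1.and (ev2.and (eventually_ge_atTop 1)))).exists
      have hX : (0 : ℝ) < X := by exact_mod_cast h5
      have hXR : (1 : ℝ) ≤ X := by exact_mod_cast h5
      set δ' : ℝ := (X : ℝ) ^ (-ν) with hδ'
      have hδ0 : 0 < δ' := by positivity
      have hδ1' : δ' ≤ 1 := Real.rpow_le_one_of_one_le_of_nonpos hXR (by linarith)
      have h7 := htr S hS P hP hPc 0 δ' le_rfl hδ0.le hδ1' X h5
      rw [sub_zero] at h7
      rw [count_eq, hEs, sum_odd_congr hEo (F := ind Q) (G := ind (fun n : ℕ => (n : ℤ) ∈ S))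
        (fun n hn => ind_congr (hQ n hn)) X] at h2
      have h8 : ∑ n ∈ Finset.Icc 1 X, ind (Fr 2 1 P 0 δ') n * ind (fun n : ℕ => (n : ℤ) ∈ S) n ≤
          ∑ n ∈ Finset.Icc 1 X, ind (fun n : ℕ => ((2 : ℕ) : ℤ) ∣ n - 1 ∧
            Int.fract (P.eval (n : ℝ)) < (n : ℝ) ^ (-ν)) n * ind (fun n : ℕ => (n : ℤ) ∈ S) n := by
        apply Finset.sum_le_sum
        intro n hn
        rw [Finset.mem_Icc] at hn
        apply mul_le_mul_of_nonneg_right _ (ind_nonneg _ _)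
        apply ind_mono
        rintro ⟨k1, -, k2⟩
        refine ⟨k1, lt_of_lt_of_le k2 ?_⟩
        rw [hδ']
        exact Real.rpow_le_rpow_of_nonpos (by exact_mod_cast hn.1) (by exact_mod_cast hn.2) (by linarith)
      have h9 := (abs_le.1 h7).1
      have h10 : -(w' / 4 * (X : ℝ)) ≤ ∑ n ∈ Finset.Icc 1 X, ind (fun n => n % 2 = 1) n *
        ind (fun n : ℕ => (n : ℤ) ∈ S) n - w' * X := (abs_le.1 h3).1
      have h11 := mul_le_mul_of_nonneg_left (show (3 * w' / 4) * (X : ℝ) ≤ ∑ n ∈ Finset.Icc 1 X,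
        ind (fun n => n % 2 = 1) n * ind (fun n : ℕ => (n : ℤ) ∈ S) n by linarith) hδ0.le
      have e1 : δ' * (X : ℝ) = (X : ℝ) ^ (1 - ν) := by
        rw [hδ']
        nth_rewrite 2 [← Real.rpow_one (X : ℝ)]
        rw [← Real.rpow_add hX]
        congr 1; ring
      have e2 : C * 2 * (X : ℝ) ^ (1 - κ) ≤ w' / 4 * (δ' * X) := by
        have e3 : C * 2 * (X : ℝ) ^ (1 - κ) = δ' * (C * 2 * (X : ℝ) ^ (1 - (κ - ν))) := by
          have e4 : (X : ℝ) ^ (1 - κ) = δ' * (X : ℝ) ^ (1 - (κ - ν)) := by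
            rw [hδ', ← Real.rpow_add hX]
            congr 1; ring
          rw [e4]; ring
        rw [e3]
        have := mul_le_mul_of_nonneg_left h4 hδ0.le
        linarith
      rw [← e1] at h2
      have h12 : 0 < w' * (δ' * X) := by positivity
      have h13 := h8.trans h2
      have h14 : δ' * (3 * w' / 4 * X) = 3 / 4 * (w' * (δ' * X)) := by ring
      have h15 : w' / 4 * (δ' * X) = 1 / 4 * (w' * (δ' * X)) := by ring
      rw [h14] at h11
      rw [h15] at h13 e2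
      have h16 : -(C * 2 * (X : ℝ) ^ (1 - κ)) ≤ ∑ n ∈ Finset.Icc 1 X, ind (Fr 2 1 P 0 δ') n *
        ind (fun n : ℕ => (n : ℤ) ∈ S) n - δ' * ∑ n ∈ Finset.Icc 1 X, ind (fun n => n % 2 = 1) n *
        ind (fun n : ℕ => (n : ℤ) ∈ S) n := h9
      linarith
    have hzero : ∀ (Q : ℕ → Prop), (∀ n : ℕ, n % 2 = 1 → ¬ Q n) →
        ∀ ε : ℝ, 0 < ε → ∃ᶠ X : ℕ in atTop, (count (Sparse P ν) Q X : ℝ) ≤ ε * (X : ℝ) ^ (1 - ν) := by
      intro Q hQ ε hε
      apply Filter.Eventually.frequently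
      filter_upwards with X
      rw [count_eq]
      have h0 : ∑ n ∈ Finset.Icc 1 X, ind (fun n => n ∈ Sparse P ν) n * ind Q n = 0 := by
        apply Finset.sum_eq_zero
        intro n _
        by_cases hn : n ∈ Sparse P ν
        · rw [ind_neg (P := Q) (hQ n (hEo n ((hEc n).1 hn))), mul_zero]
        · rw [ind_neg (P := fun n => n ∈ Sparse P ν) hn, zero_mul]
      rw [h0]
      positivity
    refine ⟨⟨?_, ?_⟩, ?_, ?_⟩
    · constructor
      · intro h
        exact hzero _ fun n hn hcon => hcon (h n hn)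
      · intro h
        by_contra hcon
        have hlt : β ((1 : ℕ) : ℤ) < 1 := lt_of_le_of_ne hnorm fun h1 => hcon (hb2.1 h1)
        exact hpos {x : ℤ | Mer x ((1 : ℕ) : ℤ)}ᶜ (1 - β ((1 : ℕ) : ℤ)) (fun n => ¬ KnownFate a (c n))
          (fun x => not_congr (Mer_T _ x)) (Dn_not (hmerD 1 le_rfl)) (fun n hn => not_congr (hreach n hn))
          (sub_pos.2 hlt) h
    · constructor
      · intro h
        exact hzero _ h
      · intro h
        rw [← hw0']
        by_contra hcon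
        have hlt : 0 < w := lt_of_le_of_ne hw1 (Ne.symm hcon)
        exact hpos WI w _ WI_T hwD hwt hlt h
    · intro θ C₀ hθ
      obtain ⟨K, hK, HK⟩ := pred_odd (C := C₀) hR hθ
      refine ⟨K, hK, fun B hB => ?_⟩
      obtain ⟨g1, g2⟩ := HK (fun n => n ∈ B) (fun X hX => by
        have h1 := hB X hX
        rw [count_eq, hEs] at h1
        exact h1)
      refine ⟨fun l hl hl3 => ?_, fun l hl => ?_⟩
      · obtain ⟨z, hz1, hz2, hz3, hz4, j, hj1, hj2⟩ := g1 l hl hl3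
        refine ⟨z, (hEc z).2 hz1, hz2, hz3, hz4, j, hj1, ?_⟩
        have hzo := hEo z hz1
        rw [fol_floor (by omega) (hfol z hzo)]
        exact_mod_cast hj2
      · obtain ⟨z, i, j, hz1, hz2, hz3, hz4, hi, hj, hij⟩ := g2 l hl
        refine ⟨z, (hEc z).2 hz1, hz2, hz3, hz4, ?_⟩
        have hzo := hEo z hz1
        refine (merge_iff (by omega) (by omega) (hfol z hzo) (hfol l hl)).2 ⟨j, i, ?_⟩
        rw [zT, zT]
        exact_mod_cast hij
    · intro θ C₀ hθ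
      have hB := baseLB_odd (B := fun n : ℕ => ((2 : ℕ) : ℤ) ∣ n - 1) (fun n hn => by omega)
      obtain ⟨K, hK, HK⟩ := suff_ind hR hB (B' := fun n => n % 2 = 1) hN_odd adv_K (C0 := C₀) hθ
      have harr : ∀ (n : ℕ) (y : ℝ), n % 2 = 1 → (ArrivesBy y (c n) ↔
          ∃ k, Pool.Agent.H499R2.HL.H k n ∧ valK k (odn k n) ≤ y) := by
        intro n y hn
        refine exists_congr fun k => ?_
        rw [arrives_iff (by omega) (hfol n hn)]
        exact Iff.rfl
      refine ⟨K, fun ψ hψ hbad n hn => ?_⟩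
      rw [harr n _ hn]
      refine HK ψ hψ (fun X hX => ?_) n (by omega) hn
      have h1 := hbad X hX
      rw [count_eq, hEs] at h1
      refine le_trans (le_of_eq ?_) h1
      refine sum_odd_congr (E := fun n : ℕ => ((2 : ℕ) : ℤ) ∣ n - 1 ∧ Int.fract (P.eval (n : ℝ)) < (n : ℝ) ^ (-ν))
        hEo (fun n hn => ?_) X
      exact ind_congr (not_congr (harr n _ hn).symm)

end Pool.Agent.Results.MP_a247fa_nt.FractionalParts
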